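import Mathlib
import Pool.Agent.Y69.Thy
import Pool.Agent.Y69.ColAsm

/-!
# The traces vanish on the classes coming from a group on which the class function vanishes
-/

namespace Pool.Agent.Q99.WC

open Finset MonoidAlgebra Matrix H970SH H842 Pool.Agent.Y69 Pool.Agent.Y69.Beta
  Pool.Agent.Y69.Comm Pool.Agent.Y69.Mon Pool.Agent.Y69.Nu Pool.Agent.Y69.KTr Pool.Agent.Y69.Uni
  Pool.Agent.Y69.Tra Pool.Agent.Y69.Thy

noncomputable section

section beta

variable {R : Type*} [CommRing R] {M M' : Type*} [Monoid M] [Monoid M']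
  {p n : ℕ} [hp : Fact p.Prime] (π : R →+* ZMod (p ^ (n + 1)))
  {χ : M → ZMod (p ^ (n + 1))} (hχ : ∀ x y, χ (x * y) = χ (y * x))

theorem tr_zero (h0 : ∀ x, χ x = 0) (b : MonoidAlgebra R (ZMod (p ^ (n + 1)) → M)) :
    tr (p ^ (n + 1)) π χ b = 0 := by
  induction b using MonoidAlgebra.induction_linear with
  | zero => rw [map_zero]
  | add x y hx hy => rw [map_add, hx, hy, add_zero]
  | single y r => rw [tr_single, h0, mul_zero]

theorem beta_zero (h0 : ∀ x, χ x = 0) (A : (MonoidAlgebra R M)ˣ) : beta π hχ A = 0 := by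
  unfold beta
  split
  · have h1 : (1 : ZMod (p ^ (n + 1))) ≠ 0 := by
      have : Fact (1 < p ^ (n + 1)) := ⟨Nat.one_lt_pow (Nat.succ_ne_zero n) hp.out.one_lt⟩
      exact one_ne_zero
    rw [Cyc.CycData.lam_formula _ h1]
    have h2 : ∀ b, (dat (p ^ (n + 1)) π hχ).t b = 0 := fun b => tr_zero π h0 b
    rw [h2]
    simp only [h2, smul_zero, Finset.sum_const_zero, sub_zero]
  · rfl

end beta

section trF

variable {R : Type} [CommRing R] {G L : Type} [Group G] [Group L]
  {p n : ℕ} [hp : Fact p.Prime] (π : R →+* ZMod (p ^ (n + 1)))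

theorem map_el' (i : L →* G) (a b : ℕ) (x : MonoidAlgebra R L) :
    mapDomainRingHom R (EM.map (fun a : ℕ => a) Function.injective_id i) (el a b x) =
      el a b (mapDomainRingHom R i x) := by
  induction x using MonoidAlgebra.induction_linear with
  | zero => simp
  | add x y hx hy => rw [map_add, map_add, hx, hy, map_add, map_add]
  | single c r =>
    rw [el_single, map_sub, mapDomainRingHom_apply, mapDomainRingHom_apply,
      mapDomainRingHom_apply, mapDomain_single, mapDomain_single, mapDomain_single, el_single]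
    rfl

theorem Th_map (i : L →* G) (m : ℕ) (M : (Matrix (Fin m) (Fin m) (MonoidAlgebra R L))ˣ) :
    Units.map (Th (fun i : Fin m => i.val) Fin.val_injective)
      (mapUnit (mapDomainRingHom R i) M) =
      Units.map (mapDomainRingHom R (EM.map (fun a : ℕ => a) Function.injective_id i) :
          MonoidAlgebra R (EM ℕ L) →* MonoidAlgebra R (EM ℕ G))
        (Units.map (Th (fun i : Fin m => i.val) Fin.val_injective) M) := by
  apply Units.ext
  show Th _ _ _ = mapDomainRingHom R _ (Th _ _ _)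
  rw [Th_apply, Th_apply, map_add, map_one, emb_apply, emb_apply, map_sum]
  congr 1
  refine Finset.sum_congr rfl fun a _ => ?_
  rw [map_sum]
  refine Finset.sum_congr rfl fun b _ => ?_
  rw [map_el']
  congr 1
  rw [Matrix.sub_apply, Matrix.sub_apply, map_sub, mapUnit_val, Matrix.map_apply]
  congr 1
  by_cases h : a = b
  · rw [h, Matrix.one_apply_eq, Matrix.one_apply_eq, map_one]
  · rw [Matrix.one_apply_ne h, Matrix.one_apply_ne h, map_zero]

theorem trF_map (hT : ∀ a : R, (p : R) * a = 0 → a = 0)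
    (hF : ∀ a : R, (p : R) ∣ a ^ p - a) (i : L →* G) (h : G → ZMod (p ^ (n + 1)))
    (hh : ∀ x y, h (x * y) = h (y * x)) (h0 : ∀ l, h (i l) = 0) (m : ℕ)
    (M : (Matrix (Fin m) (Fin m) (MonoidAlgebra R L))ˣ) :
    trF π h hh m (mapUnit (mapDomainRingHom R i) M) = 0 := by
  unfold trF
  rw [Th_map, beta_map π _ hT hF]
  apply beta_zero
  intro x
  rcases x with _ | _ | ⟨a, b, g⟩
  · rfl
  · rfl
  · show (if a = b then h (i g) else 0) = 0
    rw [h0, ite_self]

theorem beta_congr {M : Type*} [Monoid M] {χ χ' : M → ZMod (p ^ (n + 1))}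
    (hχ : ∀ x y, χ (x * y) = χ (y * x)) (hχ' : ∀ x y, χ' (x * y) = χ' (y * x)) (h : χ = χ')
    (A : (MonoidAlgebra R M)ˣ) : beta π hχ A = beta π hχ' A := by
  subst h
  rfl

theorem trF_pair (hT : ∀ a : R, (p : R) * a = 0 → a = 0)
    (hF : ∀ a : R, (p : R) ∣ a ^ p - a) (i k : L →* G) (h : G → ZMod (p ^ (n + 1)))
    (hh : ∀ x y, h (x * y) = h (y * x)) (h0 : ∀ l, h (i l) = h (k l)) (m : ℕ)
    (M : (Matrix (Fin m) (Fin m) (MonoidAlgebra R L))ˣ) :
    trF π h hh m (mapUnit (mapDomainRingHom R i) M) =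
      trF π h hh m (mapUnit (mapDomainRingHom R k) M) := by
  unfold trF
  rw [Th_map, Th_map, beta_map π _ hT hF, beta_map π _ hT hF]
  apply beta_congr
  funext x
  rcases x with _ | _ | ⟨a, b, g⟩
  · rfl
  · rfl
  · show (if a = b then h (i g) else 0) = (if a = b then h (k g) else 0)
    rw [h0]

/-- the trace on `K₁`, its values on units of the group rings of abelian groups, and its vanishing
on classes from groups on which the class function vanishes -/
theorem exists_trace' (hodd : Odd p) (hT : ∀ a : R, (p : R) * a = 0 → a = 0)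
    (hF : ∀ a : R, (p : R) ∣ a ^ p - a) (h : G → ZMod (p ^ (n + 1)))
    (hh : ∀ x y, h (x * y) = h (y * x)) :
    ∃ T : K1 (MonoidAlgebra R G) →+ ZMod (p ^ (n + 1)),
      (∀ (C : Type) [CommGroup C] (φ : C →* G) (u : (MonoidAlgebra R C)ˣ) (η : MonoidAlgebra R C),
        (u : MonoidAlgebra R C) ^ p ^ (n + 1) =
          mapDomainRingHom R (powMonoidHom p) (u : MonoidAlgebra R C) ^ p ^ n *
            (1 + ((p ^ (n + 1) : ℕ) : MonoidAlgebra R C) * η) →
        T (cl (mapUnit (mapDomainRingHom R φ) (unit1 u))) = ev π (fun c => h (φ c)) η) ∧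
      (∀ (L : Type) [Group L] (i : L →* G), (∀ l, h (i l) = 0) →
        ∀ (m : ℕ) (M : (Matrix (Fin m) (Fin m) (MonoidAlgebra R L))ˣ),
          T (K1.mk (mapUnit (mapDomainRingHom R i) M)) = 0) ∧
      (∀ (L : Type) [Group L] (i k : L →* G), (∀ l, h (i l) = h (k l)) →
        ∀ (m : ℕ) (M : (Matrix (Fin m) (Fin m) (MonoidAlgebra R L))ˣ),
          T (K1.mk (mapUnit (mapDomainRingHom R i) M)) =
            T (K1.mk (mapUnit (mapDomainRingHom R k) M))) := by
  obtain ⟨T, hTT⟩ := K1_lift (R := MonoidAlgebra R G) (trF π h hh) (trF_mul π hT hF h hh)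
    (trF_stab π h hh)
  refine ⟨T, ?_, ?_, ?_⟩
  · intro C _ φ u η hη
    unfold cl
    rw [hTT]
    unfold trF
    rw [Th_unit1, beta_map π _ hT hF, beta_th1 π hodd hT hF _ _ u η hη]
    exact ev_el π _ _ rfl (fun c => rfl) η
  · intro L _ i h0 m M
    rw [hTT]
    exact trF_map π hT hF i h hh h0 m M
  · intro L _ i k h0 m M
    rw [hTT, hTT]
    exact trF_pair π hT hF i k h hh h0 m M

end trF

section TK

variable {A : Type} [CommRing A] {p : ℕ} [hp : Fact p.Prime] (j : A →+* ℤ_[p])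
variable {G : Type} [Group G]

theorem exists_Tn' (hodd : Odd p) (h : G → ℤ) (hh : ∀ x y, h (x * y) = h (y * x)) (n : ℕ) :
    ∃ T : K1 (MonoidAlgebra ℤ_[p] G) →+ ZMod (p ^ (n + 1)),
      (∀ (C : Type) [CommGroup C] (φ : C →* G) (u : (MonoidAlgebra ℤ_[p] C)ˣ)
        (η : MonoidAlgebra ℤ_[p] C),
        (u : MonoidAlgebra ℤ_[p] C) ^ p ^ (n + 1) =
          mapDomainRingHom ℤ_[p] (powMonoidHom p) (u : MonoidAlgebra ℤ_[p] C) ^ p ^ n *
            (1 + ((p ^ (n + 1) : ℕ) : MonoidAlgebra ℤ_[p] C) * η) →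
        T (cl (mapUnit (mapDomainRingHom ℤ_[p] φ) (unit1 u))) =
          ev (PadicInt.toZModPow (n + 1)) (fun c => ((h (φ c) : ℤ) : ZMod (p ^ (n + 1)))) η) ∧
      (∀ (L : Type) [Group L] (i : L →* G), (∀ l, h (i l) = 0) →
        ∀ (m : ℕ) (M : (Matrix (Fin m) (Fin m) (MonoidAlgebra ℤ_[p] L))ˣ),
          T (K1.mk (mapUnit (mapDomainRingHom ℤ_[p] i) M)) = 0) ∧
      (∀ (L : Type) [Group L] (i k : L →* G), (∀ l, h (i l) = h (k l)) →
        ∀ (m : ℕ) (M : (Matrix (Fin m) (Fin m) (MonoidAlgebra ℤ_[p] L))ˣ),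
          T (K1.mk (mapUnit (mapDomainRingHom ℤ_[p] i) M)) =
            T (K1.mk (mapUnit (mapDomainRingHom ℤ_[p] k) M))) := by
  have h2 : ∀ x y : G, ((h (x * y) : ℤ) : ZMod (p ^ (n + 1))) = ((h (y * x) : ℤ) : ZMod _) :=
    fun x y => by rw [hh]
  obtain ⟨T, hT1, hT2, hT3⟩ := exists_trace' (R := ℤ_[p]) (G := G) (p := p) (n := n)
    (PadicInt.toZModPow (n + 1)) hodd hT hF (fun g => ((h g : ℤ) : ZMod (p ^ (n + 1)))) h2
  exact ⟨T, fun C _ φ u η hη => hT1 C φ u η hη, fun L _ i h0 m M => hT2 L i (fun l => by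
    rw [h0, Int.cast_zero]) m M, fun L _ i k h0 m M => hT3 L i k (fun l => by
    rw [h0]) m M⟩

theorem map_comm' {L : Type} [Group L] (i : L →* G) (x : MonoidAlgebra A L) :
    mapRingHom G j (mapDomainRingHom A i x) = mapDomainRingHom ℤ_[p] i (mapRingHom L j x) := by
  induction x using MonoidAlgebra.induction_linear with
  | zero => simp
  | add x y hx hy => rw [map_add, map_add, map_add, map_add, hx, hy]
  | single c a =>
    have h2 : ∀ (C : Type) [Group C] (d : C) (b : A),
      mapRingHom C j (single d b) = single d (j b) := fun C _ d b => map_single _ _ _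
    rw [h2, mapDomainRingHom_apply, mapDomainRingHom_apply, mapDomain_single, mapDomain_single, h2]

theorem mapUnit_comm' {L : Type} [Group L] (i : L →* G) {m : ℕ}
    (M : (Matrix (Fin m) (Fin m) (MonoidAlgebra A L))ˣ) :
    mapUnit (mapRingHom G j) (mapUnit (mapDomainRingHom A i) M) =
        mapUnit (mapDomainRingHom ℤ_[p] i) (mapUnit (mapRingHom L j) M) := by
  apply Units.ext
  rw [mapUnit_val, mapUnit_val, mapUnit_val, mapUnit_val]
  ext a b : 1
  rw [Matrix.map_apply, Matrix.map_apply, Matrix.map_apply, Matrix.map_apply]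
  exact map_comm' j i _

/-- the trace homomorphism on `K₁` -/
theorem exists_TK' (hodd : Odd p) (h : G → ℤ) (hh : ∀ x y, h (x * y) = h (y * x)) :
    ∃ T : K1 (MonoidAlgebra A G) →+ Lam p,
      (∀ (C : Type) [CommGroup C] [Fintype C] (_ : Nat.card C ∣ p - 1) (φ : C →* G)
        (u : Additive (MonoidAlgebra A C)ˣ),
        T (cl (mapUnit (mapDomainRingHom A φ) (unit1 u.toMul))) =
          ∑ c, bb j u c * ((h (φ c) : ℤ) : Lam p)) ∧
      (∀ (C : Type) [CommGroup C] (φ : C →* G) (u : (MonoidAlgebra A C)ˣ),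
        (∀ n, (u : MonoidAlgebra A C) ^ p ^ (n + 1) =
          mapDomainRingHom A (powMonoidHom p) (u : MonoidAlgebra A C) ^ p ^ n) →
        T (cl (mapUnit (mapDomainRingHom A φ) (unit1 u))) = 0) ∧
      (∀ (L : Type) [Group L] (i : L →* G), (∀ l, h (i l) = 0) →
        ∀ z : K1 (MonoidAlgebra A L), T (K1map (mapDomainRingHom A i) z) = 0) ∧
      (∀ (L : Type) [Group L] (i k : L →* G), (∀ l, h (i l) = h (k l)) →
        ∀ z : K1 (MonoidAlgebra A L), T (K1map (mapDomainRingHom A i) z) =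
          T (K1map (mapDomainRingHom A k) z)) := by
  obtain ⟨F, hFF⟩ := K1map_exists (mapRingHom G j : MonoidAlgebra A G →+* MonoidAlgebra ℤ_[p] G)
  choose T hTT hTZ hTP using exists_Tn' (p := p) (G := G) hodd h hh
  refine ⟨(AddMonoidHom.pi T).comp F, ?_, ?_, ?_, ?_⟩
  · intro C _ _ hC φ u
    funext n
    rw [AddMonoidHom.comp_apply, hFF, map_unit1]
    show T n _ = _
    obtain ⟨η, hη⟩ := eta_exists (p := p) hF (pow_p hC) (ju_mul j u.toMul) n
    rw [hTT n C φ (Units.map (mapRingHom C j : MonoidAlgebra A C →* MonoidAlgebra ℤ_[p] C) u.toMul)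
      η ?_, ev_eq_sum, Finset.sum_apply]
    · refine Finset.sum_congr rfl fun c _ => ?_
      show _ = PadicInt.toZModPow (n + 1) _ * _
      rw [eta_eq hT hη]
      rfl
    · rw [Units.coe_map]
      have h2 : (powMonoidHom p : C →* C) = MonoidHom.id C := by
        ext c; exact pow_p hC c
      rw [h2, mapDomainRingHom_id, RingHom.id_apply]
      show mapRingHom C j (u.toMul : MonoidAlgebra A C) ^ p ^ (n + 1) =
        mapRingHom C j (u.toMul : MonoidAlgebra A C) ^ p ^ n * _
      rw [← hη, ← pow_add]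
      congr 1
      have h3 : p = (p - 1) + 1 := (Nat.succ_pred_eq_of_pos hp.out.pos).symm
      calc p ^ (n + 1) = p ^ n * p := pow_succ p n
        _ = p ^ n * ((p - 1) + 1) := by rw [← h3]
        _ = p ^ n + (p - 1) * p ^ n := by ring
  · intro C _ φ u hu
    funext n
    rw [AddMonoidHom.comp_apply, hFF, map_unit1]
    show T n _ = 0
    rw [hTT n C φ (Units.map (mapRingHom C j : MonoidAlgebra A C →* MonoidAlgebra ℤ_[p] C) u)
      0 ?_, map_zero]
    rw [mul_zero, add_zero, mul_one, Units.coe_map]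
    show mapRingHom C j (u : MonoidAlgebra A C) ^ p ^ (n + 1) =
      mapDomainRingHom ℤ_[p] (powMonoidHom p) (mapRingHom C j (u : MonoidAlgebra A C)) ^ p ^ n
    rw [← Thy.map_comm, ← map_pow, hu, map_pow]
  · intro L _ i h0 z
    obtain ⟨m, M, rfl⟩ := K1_exists z
    funext n
    rw [AddMonoidHom.comp_apply, K1map_cl, hFF]
    show T n _ = 0
    rw [mapUnit_comm', cl_fin]
    exact hTZ n L i h0 m _
  · intro L _ i k h0 z
    obtain ⟨m, M, rfl⟩ := K1_exists z
    funext n
    rw [AddMonoidHom.comp_apply, AddMonoidHom.comp_apply, K1map_cl, K1map_cl, hFF, hFF]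
    show T n _ = T n _
    rw [mapUnit_comm', mapUnit_comm', cl_fin, cl_fin]
    exact hTP n L i k h0 m _

end TK

end

end Pool.Agent.Q99.WC
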