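import Mathlib
import Pool.Agent.Y69.StepC

/-!
# Separating classes induced from cyclic subgroups by the functions invariant under a relation
-/

namespace Pool.Agent.Q99.WC

open Finset Pool.Agent.Y69.StepC Pool.Agent.Y69.StepC.Theory

variable {Λ : Type} [CommRing Λ] {E : ℕ} {S : Theory Λ E}
variable {G : Type} [Group G] {𝒜 : Type} [AddCommGroup 𝒜]

/-- the data of the relation -/
structure RelData (S : Theory Λ E) (G : Type) [Group G] (𝒜 : Type) [AddCommGroup 𝒜] where
  sym : ∀ {C : Type} [CommGroup C] [Finite C], (C →* G) → (S.U C →+ 𝒜)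
  hs : ∀ {C D : Type} [CommGroup C] [CommGroup D] [Finite C] [Finite D] (φ : C →* G)
    (ψ : D →* G) (f : D →* C) (g : G), (∀ x, φ (f x) = g * ψ x * g⁻¹) →
      ∀ u, sym φ (S.map f u) = sym ψ u
  r : Setoid G
  ord : ∀ g g', r g g' → orderOf g = orderOf g'
  pow : ∀ g g', r g g' → ∀ k : ℤ, r (g ^ k) (g' ^ k)
  hr : ∀ {C : Type} [CommGroup C] [Finite C] (c : C) (_ : Subgroup.zpowers c = ⊤) (φ ψ : C →* G),
    r (φ c) (ψ c) → ∀ u, sym φ u = sym ψ u
  Z : Set G
  Zsat : ∀ g g', r g g' → g ∈ Z → g' ∈ Z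
  hZ : ∀ {C : Type} [CommGroup C] [Finite C] (c : C) (_ : Subgroup.zpowers c = ⊤) (φ : C →* G),
    φ c ∈ Z → ∀ u, sym φ u = 0

variable (D : RelData S G 𝒜)

/-- admissible functions -/
def Adm (h : G → ℤ) : Prop := (∀ g g', D.r g g' → h g = h g') ∧ ∀ g ∈ D.Z, h g = 0

/-- the relation of objects -/
def Rl (X Y : Obj S G) : Prop :=
  ∃ (x : X.C) (y : Y.C), Subgroup.zpowers x = ⊤ ∧ Subgroup.zpowers y = ⊤ ∧ D.r (X.φ x) (Y.φ y)

theorem exists_equiv {X Y : Obj S G} {x : X.C} {y : Y.C} (hx : Subgroup.zpowers x = ⊤)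
    (hy : Subgroup.zpowers y = ⊤) (h : D.r (X.φ x) (Y.φ y)) :
    ∃ f : Y.C ≃* X.C, f y = x := by
  have ho : orderOf y = orderOf x := by
    rw [← orderOf_injective X.φ X.inj x, ← orderOf_injective Y.φ Y.inj y]
    exact (D.ord _ _ h).symm
  have hx' : ∀ z, z ∈ Subgroup.zpowers x := fun z => by rw [hx]; exact Subgroup.mem_top z
  have hy' : ∀ z, z ∈ Subgroup.zpowers y := fun z => by rw [hy]; exact Subgroup.mem_top z
  exact ⟨mulEquivOfOrderOfEq hy' hx' ho, mulEquivOfOrderOfEq_apply_gen hy' hx' ho⟩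

theorem sym_equiv {X Y : Obj S G} (f : Y.C ≃* X.C) {y : Y.C} (hy : Subgroup.zpowers y = ⊤)
    (h : D.r (X.φ (f y)) (Y.φ y)) (u : S.U Y.C) :
    D.sym X.φ (S.map f.toMonoidHom u) = D.sym Y.φ u := by
  rw [D.hs X.φ (X.φ.comp f.toMonoidHom) f.toMonoidHom 1 (fun x => by simp) u]
  exact D.hr y hy _ _ h u

theorem merge (X : Obj S G) (m : Multiset (Obj S G)) (hm : ∀ Y ∈ m, Rl D X Y) :
    ∃ V : S.U X.C, S.Good V ∧ (m.map (Theory.val D.sym)).sum = D.sym X.φ V := by
  induction m using Multiset.induction_on with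
  | empty => exact ⟨0, Good.zero X.dvd, by simp⟩
  | cons Y m ih =>
    obtain ⟨V, hV, h1⟩ := ih fun Z hZ => hm Z (Multiset.mem_cons_of_mem hZ)
    obtain ⟨x, y, hx, hy, hxy⟩ := hm Y (Multiset.mem_cons_self Y m)
    obtain ⟨f, hf⟩ := exists_equiv D hx hy hxy
    refine ⟨S.map f.toMonoidHom Y.u + V, Good.add X.dvd (Good.map X.dvd Y.good f) hV, ?_⟩
    rw [Multiset.map_cons, Multiset.sum_cons, h1, map_add,
      sym_equiv D f hy (by rw [hf]; exact hxy)]
    rfl

variable (T : (G → ℤ) → 𝒜 →+ Λ)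
  (hT : ∀ h : G → ℤ, Adm D h → ∀ (C : Type) [CommGroup C] [Fintype C]
    (_ : Nat.card C ∣ E) (φ : C →* G) (u : S.U C),
      T h (D.sym φ u) = ∑ c, S.b u c * ((h (φ c) : ℤ) : Λ))

/-- the function `h` is supported on the class of the generators of `X` -/
def Sup (X : Obj S G) (h : G → ℤ) : Prop :=
  ∀ y : G, h y ≠ 0 → ∃ x : X.C, Subgroup.zpowers x = ⊤ ∧ D.r (X.φ x) y

include hT in
theorem T_nonrel {X Y : Obj S G} (hXY : ¬ Rl D X Y) {h : G → ℤ}
    (hh : Adm D h) (hsupp : Sup D X h) : T h (Theory.val D.sym Y) = 0 := by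
  classical
  have : Fintype Y.C := Fintype.ofFinite _
  unfold Theory.val
  rw [hT h hh Y.C Y.dvd]
  refine Finset.sum_eq_zero fun y _ => ?_
  by_cases hy : Subgroup.zpowers y = ⊤
  · by_cases h0 : h (Y.φ y) = 0
    · rw [h0, Int.cast_zero, mul_zero]
    · obtain ⟨x, hx, hxg⟩ := hsupp _ h0
      exact absurd ⟨x, y, hx, hy, hxg⟩ hXY
  · rw [Y.good y hy, zero_mul]

include hT in
theorem torsion_of {X : Obj S G} (hXZ : ∀ x : X.C, Subgroup.zpowers x = ⊤ → X.φ x ∉ D.Z)
    (V : S.U X.C) (hV : S.Good V)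
    (h0 : ∀ h : G → ℤ, Adm D h → Sup D X h → T h (D.sym X.φ V) = 0) :
    ∃ k : ℕ, 0 < k ∧ k • D.sym X.φ V = 0 := by
  classical
  have : Fintype X.C := Fintype.ofFinite _
  have : Fintype (X.C ≃* X.C) := Fintype.ofFinite _
  by_cases hcyc : ∃ c : X.C, Subgroup.zpowers c = ⊤
  swap
  · have hb : S.b V = 0 := by
      funext c
      exact hV c (fun h => hcyc ⟨c, h⟩)
    obtain ⟨k, hk, h1⟩ := S.tors X.dvd V hb
    exact ⟨k, hk, by rw [← map_nsmul, h1, map_zero]⟩
  obtain ⟨c0, hc0⟩ := hcyc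
  let W : Finset (X.C ≃* X.C) :=
    Finset.univ.filter fun w => ∀ c, Subgroup.zpowers c = ⊤ → D.r (X.φ (w c)) (X.φ c)
  have hW1 : (MulEquiv.refl X.C) ∈ W :=
    Finset.mem_filter.2 ⟨Finset.mem_univ _, fun c _ => D.r.refl _⟩
  have hWpos : 0 < W.card := Finset.card_pos.2 ⟨_, hW1⟩
  let V' : S.U X.C := ∑ w ∈ W, S.map w.toMonoidHom V
  have e1 : D.sym X.φ V' = W.card • D.sym X.φ V := by
    show D.sym X.φ (∑ w ∈ W, S.map w.toMonoidHom V) = _
    rw [map_sum, ← Finset.sum_const]
    refine Finset.sum_congr rfl fun w hw => ?_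
    have hg := (Finset.mem_filter.1 hw).2
    exact sym_equiv D (X := X) (Y := X) w hc0 (hg c0 hc0) V
  have e2 : ∀ c, S.b V' c = ∑ w ∈ W, S.b V (w.symm c) := by
    intro c
    show S.b (∑ w ∈ W, S.map w.toMonoidHom V) c = _
    rw [S.b_sum X.dvd]
    refine Finset.sum_congr rfl fun w _ => ?_
    have h1 : c = w.toMonoidHom (w.symm c) := (w.apply_symm_apply c).symm
    conv_lhs => rw [h1]
    rw [S.b_map X.dvd w.toMonoidHom w.injective]
  have e3 : S.b V' = 0 := by
    funext c
    rw [e2]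
    by_cases hc : Subgroup.zpowers c = ⊤
    · -- use the indicator function of the class
      let h : G → ℤ := fun y => if D.r (X.φ c) y then 1 else 0
      have hh : Adm D h := by
        constructor
        · intro x y hxy
          have : D.r (X.φ c) x ↔ D.r (X.φ c) y :=
            ⟨fun h => D.r.trans h hxy, fun h => D.r.trans h (D.r.symm hxy)⟩
          show (if D.r (X.φ c) x then (1 : ℤ) else 0) = if D.r (X.φ c) y then 1 else 0
          simp only [this]
        · intro y hy
          show (if D.r (X.φ c) y then (1 : ℤ) else 0) = 0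
          rw [if_neg]
          intro h1
          exact hXZ c hc (D.Zsat _ _ (D.r.symm h1) hy)
      have hsupp : Sup D X h := by
        intro y hy
        have h2 : D.r (X.φ c) y := by
          by_contra h3
          exact hy (if_neg h3)
        exact ⟨c, hc, h2⟩
      have h4 := h0 h hh hsupp
      rw [hT h hh X.C X.dvd] at h4
      have h5 : ∑ x, S.b V x * ((h (X.φ x) : ℤ) : Λ) =
          ∑ x ∈ Finset.univ.filter (fun x => D.r (X.φ c) (X.φ x)), S.b V x := by
        rw [Finset.sum_filter]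
        refine Finset.sum_congr rfl fun x _ => ?_
        show S.b V x * (((if D.r (X.φ c) (X.φ x) then (1 : ℤ) else 0) : ℤ) : Λ) = _
        by_cases h6 : D.r (X.φ c) (X.φ x)
        · rw [if_pos h6, if_pos h6, Int.cast_one, mul_one]
        · rw [if_neg h6, if_neg h6, Int.cast_zero, mul_zero]
      rw [h5] at h4
      rw [Pi.zero_apply, ← h4]
      refine Finset.sum_bij (fun w _ => w.symm c) ?_ ?_ ?_ ?_
      · intro w hw
        rw [Finset.mem_filter]
        refine ⟨Finset.mem_univ _, ?_⟩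
        have hg := (Finset.mem_filter.1 hw).2
        have hc' : Subgroup.zpowers (w.symm c) = ⊤ := by
          by_contra hne
          have := zpowers_map_top w.symm.symm (w.symm c)
          have h8 : Subgroup.zpowers (w.symm c) ≠ ⊤ → Subgroup.zpowers c ≠ ⊤ := by
            intro h9
            exact zpowers_map_top w.symm c h9
          exact h8 hne hc
        have h7 := hg (w.symm c) hc'
        rw [MulEquiv.apply_symm_apply] at h7
        exact h7
      · intro w hw w' hw' hww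
        have h8 : w.symm = w'.symm := by
          ext z
          have hz : z ∈ Subgroup.zpowers c := by rw [hc]; exact Subgroup.mem_top _
          obtain ⟨k, rfl⟩ := Subgroup.mem_zpowers_iff.1 hz
          rw [map_zpow, map_zpow]
          rw [hww]
        have h9 := congrArg MulEquiv.symm h8
        exact h9
      · intro x hx
        have hg := (Finset.mem_filter.1 hx).2
        have ho : orderOf x = orderOf c := by
          rw [← orderOf_injective X.φ X.inj x, ← orderOf_injective X.φ X.inj c]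
          exact (D.ord _ _ hg).symm
        have hcx : Subgroup.zpowers x = ⊤ := by
          rw [← Subgroup.card_eq_iff_eq_top, Nat.card_zpowers, ho, ← Nat.card_zpowers, hc]
          exact (Subgroup.card_eq_iff_eq_top _).2 rfl
        have hx' : ∀ z, z ∈ Subgroup.zpowers x := fun z => by rw [hcx]; exact Subgroup.mem_top z
        have hc' : ∀ z, z ∈ Subgroup.zpowers c := fun z => by rw [hc]; exact Subgroup.mem_top z
        let w : X.C ≃* X.C := mulEquivOfOrderOfEq hx' hc' ho
        have hwx : w x = c := mulEquivOfOrderOfEq_apply_gen hx' hc' ho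
        refine ⟨w, ?_, ?_⟩
        · rw [Finset.mem_filter]
          refine ⟨Finset.mem_univ _, fun z _ => ?_⟩
          obtain ⟨k, rfl⟩ := Subgroup.mem_zpowers_iff.1 (hx' z)
          rw [map_zpow, hwx, map_zpow, map_zpow]
          exact D.pow _ _ hg k
        · rw [← hwx, MulEquiv.symm_apply_apply]
      · intro w _; rfl
    · rw [Pi.zero_apply]
      refine Finset.sum_eq_zero fun w _ => hV _ ?_
      apply zpowers_map_top w
      rw [MulEquiv.apply_symm_apply]
      exact hc
  obtain ⟨k, hk, h1⟩ := S.tors X.dvd V' e3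
  refine ⟨k * W.card, Nat.mul_pos hk hWpos, ?_⟩
  rw [mul_smul, ← e1, ← map_nsmul, h1, map_zero]

include hT in
theorem multiset_torsion : ∀ (n : ℕ) (m : Multiset (Obj S G)), m.card = n →
    (∀ h : G → ℤ, Adm D h → T h (m.map (Theory.val D.sym)).sum = 0) →
    ∃ k : ℕ, 0 < k ∧ k • (m.map (Theory.val D.sym)).sum = 0 := by
  classical
  intro n
  induction n using Nat.strong_induction_on with
  | _ n ih =>
  intro m hm h0
  by_cases hempty : m = 0
  · exact ⟨1, one_pos, by rw [hempty]; simp⟩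
  obtain ⟨X, hX⟩ := Multiset.exists_mem_of_ne_zero hempty
  by_cases hXZ : ∃ x : X.C, Subgroup.zpowers x = ⊤ ∧ X.φ x ∈ D.Z
  · obtain ⟨x, hx, hxZ⟩ := hXZ
    obtain ⟨m', rfl⟩ := Multiset.exists_cons_of_mem hX
    have h1 : ((X ::ₘ m').map (Theory.val D.sym)).sum = (m'.map (Theory.val D.sym)).sum := by
      rw [Multiset.map_cons, Multiset.sum_cons]
      have : Theory.val D.sym X = 0 := D.hZ x hx X.φ hxZ X.u
      rw [this, zero_add]
    rw [h1]
    refine ih m'.card ?_ m' rfl (fun h hh => ?_)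
    · rw [← hm, Multiset.card_cons]
      exact Nat.lt_succ_self _
    · rw [← h1]
      exact h0 h hh
  have hXZ' : ∀ x : X.C, Subgroup.zpowers x = ⊤ → X.φ x ∉ D.Z :=
    fun x hx hxZ => hXZ ⟨x, hx, hxZ⟩
  by_cases hcyc : ∃ c : X.C, Subgroup.zpowers c = ⊤
  swap
  · -- the class is torsion
    obtain ⟨m', rfl⟩ := Multiset.exists_cons_of_mem hX
    have hb : S.b X.u = 0 := by
      funext c
      exact X.good c (fun h => hcyc ⟨c, h⟩)
    obtain ⟨k1, hk1, h1⟩ := S.tors X.dvd X.u hb
    have h2 : k1 • Theory.val D.sym X = 0 := by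
      show k1 • D.sym X.φ X.u = 0
      rw [← map_nsmul, h1, map_zero]
    have hTX : ∀ h : G → ℤ, Adm D h → T h (Theory.val D.sym X) = 0 := by
      intro h hh
      have : Fintype X.C := Fintype.ofFinite _
      show T h (D.sym X.φ X.u) = 0
      rw [hT h hh X.C X.dvd]
      refine Finset.sum_eq_zero fun c _ => ?_
      rw [hb, Pi.zero_apply, zero_mul]
    obtain ⟨k2, hk2, h3⟩ := ih m'.card (by
      rw [← hm, Multiset.card_cons]
      exact Nat.lt_succ_self _) m' rfl (fun h hh => by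
        have h4 := h0 h hh
        rw [Multiset.map_cons, Multiset.sum_cons, map_add, hTX h hh, zero_add] at h4
        exact h4)
    refine ⟨k1 * k2, Nat.mul_pos hk1 hk2, ?_⟩
    rw [Multiset.map_cons, Multiset.sum_cons, smul_add, mul_comm, mul_smul, h2, smul_zero,
      mul_comm, mul_smul, h3, smul_zero, add_zero]
  obtain ⟨c0, hc0⟩ := hcyc
  have hsplit := Multiset.filter_add_not (fun Y => Rl D X Y) m
  set m1 := m.filter (fun Y => Rl D X Y) with hm1
  set m2 := m.filter (fun Y => ¬ Rl D X Y) with hm2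
  obtain ⟨V, hV, hV1⟩ := merge D X m1 fun Y hY => (Multiset.mem_filter.1 hY).2
  have hsum : (m.map (Theory.val D.sym)).sum = D.sym X.φ V + (m2.map (Theory.val D.sym)).sum := by
    rw [← hsplit, Multiset.map_add, Multiset.sum_add, hV1]
  have hz : ∀ h : G → ℤ, Adm D h → Sup D X h → T h (D.sym X.φ V) = 0 := by
    intro h hh hsupp
    have h1 := h0 h hh
    rw [hsum, map_add] at h1
    have h2 : T h (m2.map (Theory.val D.sym)).sum = 0 := by
      rw [map_multiset_sum, Multiset.map_map]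
      apply Multiset.sum_eq_zero
      intro x hx
      obtain ⟨Y, hY, rfl⟩ := Multiset.mem_map.1 hx
      exact T_nonrel D T hT (Multiset.mem_filter.1 hY).2 hh hsupp
    rw [h2, add_zero] at h1
    exact h1
  have hz2 : ∀ h : G → ℤ, Adm D h → T h (D.sym X.φ V) = 0 := by
    intro h hh
    have : Fintype X.C := Fintype.ofFinite _
    let h' : G → ℤ := fun y =>
      if ∃ x : X.C, Subgroup.zpowers x = ⊤ ∧ D.r (X.φ x) y then h y else 0
    have hh' : Adm D h' := by
      constructor
      · intro x y hxy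
        have h1 : (∃ z : X.C, Subgroup.zpowers z = ⊤ ∧ D.r (X.φ z) x) ↔
            ∃ z : X.C, Subgroup.zpowers z = ⊤ ∧ D.r (X.φ z) y := by
          constructor
          · rintro ⟨z, hz, hzg⟩
            exact ⟨z, hz, D.r.trans hzg hxy⟩
          · rintro ⟨z, hz, hzg⟩
            exact ⟨z, hz, D.r.trans hzg (D.r.symm hxy)⟩
        show (if _ then h x else 0) = if _ then h y else 0
        simp only [h1, hh.1 x y hxy]
      · intro y hy
        show (if _ then h y else 0) = 0
        rw [hh.2 y hy, ite_self]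
    have hsupp : Sup D X h' := by
      intro y hy
      by_contra h2
      exact hy (if_neg h2)
    have h3 := hz h' hh' hsupp
    rw [hT h' hh' X.C X.dvd] at h3
    rw [hT h hh X.C X.dvd, ← h3]
    refine Finset.sum_congr rfl fun c _ => ?_
    by_cases hc : Subgroup.zpowers c = ⊤
    · have : h' (X.φ c) = h (X.φ c) := if_pos ⟨c, hc, D.r.refl _⟩
      rw [this]
    · rw [hV c hc, zero_mul, zero_mul]
  obtain ⟨k1, hk1, h1⟩ := torsion_of D T hT hXZ' V hV hz
  have hcard : m2.card < n := by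
    have h2 : m1.card + m2.card = n := by rw [← Multiset.card_add, hsplit, hm]
    have h3 : 0 < m1.card :=
      Multiset.card_pos_iff_exists_mem.2 ⟨X, Multiset.mem_filter.2 ⟨hX, ⟨c0, c0, hc0, hc0,
        D.r.refl _⟩⟩⟩
    omega
  obtain ⟨k2, hk2, h2⟩ := ih m2.card hcard m2 rfl (by
    intro h hh
    have h3 := h0 h hh
    rw [hsum, map_add, hz2 h hh, zero_add] at h3
    exact h3)
  refine ⟨k1 * k2, Nat.mul_pos hk1 hk2, ?_⟩
  rw [hsum, smul_add, mul_comm, mul_smul, h1, smul_zero, mul_comm, mul_smul, h2, smul_zero,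
    add_zero]

include hT in
/-- **Main theorem**. -/
theorem main {y : 𝒜} (hy : y ∈ AddSubgroup.closure {z : 𝒜 | ∃ (C : Type) (_ : CommGroup C)
      (_ : Finite C) (_ : Nat.card C ∣ E) (φ : C →* G) (_ : Function.Injective φ) (u : S.U C),
      z = D.sym φ u})
    (h0 : ∀ h : G → ℤ, Adm D h → T h y = 0) :
    ∃ k : ℕ, 0 < k ∧ k • y = 0 := by
  have h1 : y ∈ Qtor D.sym := by
    have h2 : AddSubgroup.closure {z : 𝒜 | ∃ (C : Type) (_ : CommGroup C)
      (_ : Finite C) (_ : Nat.card C ∣ E) (φ : C →* G) (_ : Function.Injective φ) (u : S.U C),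
      z = D.sym φ u} ≤ Qtor D.sym := by
      rw [AddSubgroup.closure_le]
      rintro z ⟨C, _, _, hC, φ, hφ, u, rfl⟩
      exact C3 D.sym D.hs _ C rfl hC φ hφ u
    exact h2 hy
  obtain ⟨m, hm, h2⟩ := h1
  obtain ⟨M, hM⟩ := exists_multiset D.sym h2
  obtain ⟨k, hk, h3⟩ := multiset_torsion D T hT M.card M rfl (by
    intro h hh
    rw [hM, map_nsmul, h0 h hh, smul_zero])
  refine ⟨k * m, Nat.mul_pos hk hm, ?_⟩
  rw [mul_smul, ← hM, h3]

end Pool.Agent.Q99.WC
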