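import Mathlib
import Pool.Agent.Y69.Main
import Pool.Agent.Q99.WC.Nat
import Pool.Agent.Q99.WC.Sep

/-!
# The relative form of the injectivity theorem on the level of `K₁`
-/

namespace Pool.Agent.Q99.WC

open H970SH H842 MonoidAlgebra Pool.Agent.Y69 Pool.Agent.Y69.Thy Pool.Agent.Y69.StepC
  Pool.Agent.Y69.Main

noncomputable section

variable {G : Type} [Group G] (Θ : Set (Σ A : Subgroup G, A →* G)) (𝓗 : Set (Subgroup G))

/-- the subgroup of `K₁(ℤ[G])` -/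
def D1 : AddSubgroup (K1 (MonoidAlgebra ℤ G)) :=
  AddSubgroup.closure ({z | ∃ s ∈ Θ, ∃ y : K1 (MonoidAlgebra ℤ s.1),
      z = K1map (mapDomainRingHom ℤ s.2) y - K1map (mapDomainRingHom ℤ s.1.subtype) y} ∪
    {z | ∃ H ∈ 𝓗, ∃ y : K1 (MonoidAlgebra ℤ H), z = K1map (mapDomainRingHom ℤ H.subtype) y})

/-- the subgroup of the colimit -/
def N1 : AddSubgroup (K1Colim ℤ G) :=
  AddSubgroup.closure ({z | ∃ s ∈ Θ, ∃ (K K' : FinSub G) (κ : K.1 →* K'.1)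
      (w : K1 (MonoidAlgebra ℤ K.1)),
      (∀ k : K.1, ∃ hk : (k : G) ∈ s.1, (κ k : G) = s.2 ⟨k, hk⟩) ∧
      z = Colim.ι (fun H => K1 (MonoidAlgebra ℤ H)) (fun φ => K1map (mapDomainRingHom ℤ φ)) K'
          (K1map (mapDomainRingHom ℤ κ) w) -
        Colim.ι (fun H => K1 (MonoidAlgebra ℤ H)) (fun φ => K1map (mapDomainRingHom ℤ φ)) K w} ∪
    {z | ∃ H ∈ 𝓗, ∃ K : FinSub G, K.1 ≤ H ∧ ∃ w : K1 (MonoidAlgebra ℤ K.1),
      z = Colim.ι (fun H => K1 (MonoidAlgebra ℤ H)) (fun φ => K1map (mapDomainRingHom ℤ φ)) K w})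

/-- the elementary steps of the relation -/
def Step (g g' : G) : Prop := (∃ a : G, g' = a * g * a⁻¹) ∨ ∃ s ∈ Θ, ∃ k : s.1, g = k ∧ g' = s.2 k

/-- the relation -/
def rel : Setoid G := Relation.EqvGen.setoid (Step Θ)

theorem rel_step {g g' : G} (h : Step Θ g g') : rel Θ g g' := Relation.EqvGen.rel _ _ h

theorem rel_conj (g a : G) : rel Θ g (a * g * a⁻¹) := rel_step Θ (Or.inl ⟨a, rfl⟩)

theorem rel_ord (hΘ : ∀ s ∈ Θ, Function.Injective s.2) {g g' : G}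
    (h : Relation.EqvGen (Step Θ) g g') : orderOf g = orderOf g' := by
  induction h with
  | rel x y hst =>
    rcases hst with ⟨a, rfl⟩ | ⟨s, hs, k, rfl, rfl⟩
    · exact ((MulAut.conj a).orderOf_eq x).symm
    · rw [orderOf_injective s.2 (hΘ s hs) k]
      exact Subgroup.orderOf_coe k
  | refl x => rfl
  | symm x y _ ih => exact ih.symm
  | trans x y z h1 h2 ih1 ih2 => exact ih1.trans ih2

theorem rel_pow {g g' : G} (h : Relation.EqvGen (Step Θ) g g') (k : ℤ) :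
    rel Θ (g ^ k) (g' ^ k) := by
  induction h with
  | rel x y hst =>
    rcases hst with ⟨a, rfl⟩ | ⟨s, hs, l, rfl, rfl⟩
    · rw [conj_zpow]
      exact rel_conj Θ _ a
    · refine rel_step Θ (Or.inr ⟨s, hs, l ^ k, ?_, ?_⟩)
      · rw [SubgroupClass.coe_zpow]
      · rw [map_zpow]
  | refl x => exact (rel Θ).refl _
  | symm x y _ ih => exact (rel Θ).symm ih
  | trans x y z h1 h2 ih1 ih2 => exact (rel Θ).trans ih1 ih2

/-- the quotient of the colimit -/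
abbrev Quo : Type := K1Colim ℤ G ⧸ N1 Θ 𝓗

/-- the symbols in the quotient -/
def qsym {C : Type} [CommGroup C] [Finite C] (φ : C →* G) :
    Additive (MonoidAlgebra ℤ C)ˣ →+ Quo Θ 𝓗 :=
  (QuotientAddGroup.mk' (N1 Θ 𝓗)).comp (Main.sym ℤ φ)

theorem qsym_apply {C : Type} [CommGroup C] [Finite C] (φ : C →* G)
    (u : Additive (MonoidAlgebra ℤ C)ˣ) :
    qsym Θ 𝓗 φ u = QuotientAddGroup.mk' (N1 Θ 𝓗) (Main.sym ℤ φ u) := rfl

theorem qsym_map {C D : Type} [CommGroup C] [CommGroup D] [Finite C] [Finite D] (φ : C →* G)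
    (ψ : D →* G) (f : D →* C) (g : G) (h : ∀ x, φ (f x) = g * ψ x * g⁻¹)
    (u : Additive (MonoidAlgebra ℤ D)ˣ) : qsym Θ 𝓗 φ (umap ℤ f u) = qsym Θ 𝓗 ψ u := by
  rw [qsym_apply, qsym_apply, sym_map ℤ φ ψ f g h]

theorem qsym_conj {C : Type} [CommGroup C] [Finite C] (φ ψ : C →* G) (a : G)
    (h : ∀ x, ψ x = a * φ x * a⁻¹) (u : Additive (MonoidAlgebra ℤ C)ˣ) :
    qsym Θ 𝓗 φ u = qsym Θ 𝓗 ψ u := by
  have h1 := qsym_map Θ 𝓗 φ φ (MonoidHom.id C) 1 (fun x => by simp) u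
  have h2 := qsym_map Θ 𝓗 ψ φ (MonoidHom.id C) a (fun x => h x) u
  have h3 := qsym_map Θ 𝓗 ψ ψ (MonoidHom.id C) 1 (fun x => by simp) u
  rw [← h2, h3]

theorem qsym_pair {C : Type} [CommGroup C] [Finite C] {s : Σ A : Subgroup G, A →* G} (hs : s ∈ Θ)
    (χ : C →* s.1) (u : Additive (MonoidAlgebra ℤ C)ˣ) :
    qsym Θ 𝓗 (s.1.subtype.comp χ) u = qsym Θ 𝓗 (s.2.comp χ) u := by
  have hmem : ∀ y : (rg (s.1.subtype.comp χ)).1, (y : G) ∈ s.1 := by
    rintro ⟨_, x, rfl⟩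
    exact (χ x).2
  have hmem2 : ∀ y : (rg (s.1.subtype.comp χ)).1, s.2 ⟨y, hmem y⟩ ∈ (rg (s.2.comp χ)).1 := by
    rintro ⟨_, x, rfl⟩
    exact ⟨x, rfl⟩
  let κ : (rg (s.1.subtype.comp χ)).1 →* (rg (s.2.comp χ)).1 :=
    { toFun := fun y => ⟨s.2 ⟨y, hmem y⟩, hmem2 y⟩
      map_one' := by
        apply Subtype.ext
        show s.2 ⟨(1 : G), _⟩ = 1
        exact map_one s.2
      map_mul' := fun y z => by
        apply Subtype.ext
        show s.2 ⟨(y : G) * (z : G), _⟩ = s.2 ⟨y, hmem y⟩ * s.2 ⟨z, hmem z⟩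
        rw [← map_mul]
        rfl }
  have h1 : κ.comp (rrg (s.1.subtype.comp χ)) = rrg (s.2.comp χ) := by
    ext x
    rfl
  rw [qsym_apply, qsym_apply, sym_apply, sym_apply, ← sub_eq_zero, ← map_sub]
  have h2 : Colim.ι (fun H => K1 (MonoidAlgebra ℤ H)) (fun φ => K1map (mapDomainRingHom ℤ φ))
        (rg (s.2.comp χ)) (K1map (mapDomainRingHom ℤ κ)
          (cl (mapUnit (mapDomainRingHom ℤ (rrg (s.1.subtype.comp χ))) (unit1 u.toMul)))) -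
      Colim.ι (fun H => K1 (MonoidAlgebra ℤ H)) (fun φ => K1map (mapDomainRingHom ℤ φ))
        (rg (s.1.subtype.comp χ))
        (cl (mapUnit (mapDomainRingHom ℤ (rrg (s.1.subtype.comp χ))) (unit1 u.toMul))) ∈
        N1 Θ 𝓗 := by
    refine AddSubgroup.subset_closure (Or.inl ⟨s, hs, _, _, κ, _, ?_, rfl⟩)
    intro k
    exact ⟨hmem k, rfl⟩
  rw [K1map_cl, mapUnit_comp, h1] at h2
  have h3 := (N1 Θ 𝓗).neg_mem h2
  rw [neg_sub] at h3
  exact (QuotientAddGroup.eq_zero_iff _).2 h3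

theorem qsym_kill {C : Type} [CommGroup C] [Finite C] {H : Subgroup G} (hH : H ∈ 𝓗) (φ : C →* G)
    (h : ∀ x, φ x ∈ H) (u : Additive (MonoidAlgebra ℤ C)ˣ) : qsym Θ 𝓗 φ u = 0 := by
  rw [qsym_apply, sym_apply]
  refine (QuotientAddGroup.eq_zero_iff _).2 (AddSubgroup.subset_closure (Or.inr ⟨H, hH, rg φ, ?_,
    _, rfl⟩))
  rintro _ ⟨x, rfl⟩
  exact h x

/-- the homomorphism of a cyclic group with a given value on the generator -/
theorem exists_hom {C : Type} [CommGroup C] (c : C) (hc : Subgroup.zpowers c = ⊤) {L : Type}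
    [Group L] (l : L) (h : orderOf l ∣ orderOf c) : ∃ χ : C →* L, χ c = l := by
  have hc' : ∀ z, z ∈ Subgroup.zpowers c := fun z => by rw [hc]; exact Subgroup.mem_top z
  exact ⟨monoidHomOfForallMemZpowers hc' h, monoidHomOfForallMemZpowers_apply_gen hc' h⟩

theorem hom_eq {C : Type} [CommGroup C] (c : C) (hc : Subgroup.zpowers c = ⊤) {L : Type}
    [Group L] {φ ψ : C →* L} (h : φ c = ψ c) : φ = ψ := by
  ext x
  have hx : x ∈ Subgroup.zpowers c := by rw [hc]; exact Subgroup.mem_top x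
  obtain ⟨k, rfl⟩ := Subgroup.mem_zpowers_iff.1 hx
  rw [map_zpow, map_zpow, h]

theorem qsym_rel (hΘ : ∀ s ∈ Θ, Function.Injective s.2) {g g' : G}
    (h : Relation.EqvGen (Step Θ) g g') {C : Type}
    [CommGroup C] [Finite C] (c : C) (hc : Subgroup.zpowers c = ⊤) :
    ∀ (φ ψ : C →* G), φ c = g → ψ c = g' → ∀ u, qsym Θ 𝓗 φ u = qsym Θ 𝓗 ψ u := by
  induction h with
  | rel x y hst =>
    intro φ ψ hφ hψ u
    rcases hst with ⟨a, rfl⟩ | ⟨s, hs, l, rfl, rfl⟩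
    · refine qsym_conj Θ 𝓗 φ ψ a (fun x => ?_) u
      have hx : x ∈ Subgroup.zpowers c := by rw [hc]; exact Subgroup.mem_top x
      obtain ⟨k, rfl⟩ := Subgroup.mem_zpowers_iff.1 hx
      rw [map_zpow, map_zpow, hφ, hψ, conj_zpow]
    · have hl : orderOf l ∣ orderOf c := by
        rw [← Subgroup.orderOf_coe l, ← hφ]
        exact orderOf_map_dvd φ c
      obtain ⟨χ, hχ⟩ := exists_hom c hc l hl
      have e1 : φ = s.1.subtype.comp χ := hom_eq c hc (by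
        rw [hφ, MonoidHom.comp_apply, hχ]
        rfl)
      have e2 : ψ = s.2.comp χ := hom_eq c hc (by rw [hψ, MonoidHom.comp_apply, hχ])
      rw [e1, e2]
      exact qsym_pair Θ 𝓗 hs χ u
  | refl x =>
    intro φ ψ hφ hψ u
    rw [hom_eq c hc (hφ.trans hψ.symm)]
  | symm x y _ ih =>
    intro φ ψ hφ hψ u
    exact (ih ψ φ hψ hφ u).symm
  | trans x y z h1 h2 ih1 ih2 =>
    intro φ ψ hφ hψ u
    have hy : orderOf y ∣ orderOf c := by
      rw [← rel_ord Θ hΘ (g := x) (g' := y) h1, ← hφ]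
      exact orderOf_map_dvd φ c
    obtain ⟨χ, hχ⟩ := exists_hom c hc y hy
    rw [ih1 φ χ hφ hχ u, ih2 χ ψ hχ hψ u]

variable {p : ℕ} [hp : Fact p.Prime]

/-- the data for the separation theorem -/
def data (hΘ : ∀ s ∈ Θ, Function.Injective s.2) :
    RelData (theory (A := ℤ) (p := p) (Int.castRingHom ℤ_[p]) Int.cast_injective) G (Quo Θ 𝓗) where
  sym φ := qsym Θ 𝓗 φ
  hs φ ψ f g h u := qsym_map Θ 𝓗 φ ψ f g h u
  r := rel Θ
  ord g g' h := rel_ord Θ hΘ h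
  pow g g' h k := rel_pow Θ h k
  hr c hc φ ψ h u := qsym_rel Θ 𝓗 hΘ h c hc φ ψ rfl rfl u
  Z := {g | ∃ H ∈ 𝓗, ∃ z ∈ H, rel Θ z g}
  Zsat := by
    rintro g g' h ⟨H, hH, z, hz, hzg⟩
    exact ⟨H, hH, z, hz, (rel Θ).trans hzg h⟩
  hZ := by
    rintro C _ _ c hc φ ⟨H, hH, z, hz, hzg⟩ u
    have hy : orderOf z ∣ orderOf c := by
      rw [rel_ord Θ hΘ hzg]
      exact orderOf_map_dvd φ c
    obtain ⟨ψ, hψ⟩ := exists_hom c hc z hy
    show qsym Θ 𝓗 φ u = 0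
    rw [← qsym_rel Θ 𝓗 hΘ hzg c hc ψ φ hψ rfl u]
    refine qsym_kill Θ 𝓗 hH ψ (fun x => ?_) u
    have hx : x ∈ Subgroup.zpowers c := by rw [hc]; exact Subgroup.mem_top x
    obtain ⟨k, rfl⟩ := Subgroup.mem_zpowers_iff.1 hx
    rw [map_zpow, hψ]
    exact H.zpow_mem hz k

/-- the functions which are invariant under the relation and vanish on the members of `𝓗` -/
def Admi (h : G → ℤ) : Prop :=
  (∀ g g', rel Θ g g' → h g = h g') ∧ ∀ g ∈ {g | ∃ H ∈ 𝓗, ∃ z ∈ H, rel Θ z g}, h g = 0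

theorem Admi.cls {h : G → ℤ} (hh : Admi Θ 𝓗 h) (x y : G) : h (x * y) = h (y * x) := by
  apply hh.1
  have h1 := rel_conj Θ (x * y) y
  have h2 : y * (x * y) * y⁻¹ = y * x := by group
  rwa [h2] at h1

/-- the traces on the quotient -/
theorem exists_TA (hodd : Odd p) (h : G → ℤ) (hh : Admi Θ 𝓗 h) :
    ∃ (T0 : K1 (MonoidAlgebra ℤ G) →+ Lam p) (T : Quo Θ 𝓗 →+ Lam p),
      (∀ x, T (QuotientAddGroup.mk' (N1 Θ 𝓗) x) = T0 (K1assembly ℤ G x)) ∧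
      (∀ (C : Type) [CommGroup C] [Fintype C] (_ : Nat.card C ∣ p - 1) (φ : C →* G)
        (u : Additive (MonoidAlgebra ℤ C)ˣ), T (qsym Θ 𝓗 φ u) =
          ∑ c, bb (Int.castRingHom ℤ_[p]) u c * ((h (φ c) : ℤ) : Lam p)) ∧
      (∀ z ∈ trivialUnits G ⊔ D1 Θ 𝓗, T0 z = 0) := by
  obtain ⟨T0, hT1, hT2, hT3, hT4⟩ := exists_TK' (A := ℤ) (Int.castRingHom ℤ_[p]) hodd h hh.cls
  have hN : N1 Θ 𝓗 ≤ (T0.comp (K1assembly ℤ G)).ker := by
    unfold N1
    rw [AddSubgroup.closure_le]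
    rintro z (⟨s, hs, K, K', κ, w, hκ, rfl⟩ | ⟨H, hH, K, hK, w, rfl⟩)
    · show T0 (K1assembly ℤ G (_ - _)) = 0
      rw [map_sub, map_sub, K1assembly_ι, K1assembly_ι, K1map_comp, mapDomainRingHom_comp',
        sub_eq_zero]
      apply hT4
      intro k
      obtain ⟨hk, hk2⟩ := hκ k
      show h (κ k : G) = h (k : G)
      rw [hk2]
      exact (hh.1 _ _ (rel_step Θ (Or.inr ⟨s, hs, ⟨k, hk⟩, rfl, rfl⟩))).symm
    · show T0 (K1assembly ℤ G _) = 0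
      rw [K1assembly_ι]
      apply hT3
      intro k
      exact hh.2 _ ⟨H, hH, _, hK k.2, (rel Θ).refl _⟩
  refine ⟨T0, QuotientAddGroup.lift (N1 Θ 𝓗) (T0.comp (K1assembly ℤ G)) hN, ?_, ?_, ?_⟩
  · intro x
    rw [QuotientAddGroup.mk'_apply, QuotientAddGroup.lift_mk]
    rfl
  · intro C _ _ hC φ u
    rw [qsym_apply, QuotientAddGroup.mk'_apply, QuotientAddGroup.lift_mk, AddMonoidHom.comp_apply,
      assembly_sym]
    exact hT1 C hC φ u
  · have h1 : trivialUnits G ⊔ D1 Θ 𝓗 ≤ T0.ker := by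
      refine sup_le (trivialUnits_le T0 hodd hT2) ?_
      unfold D1
      rw [AddSubgroup.closure_le]
      rintro z (⟨s, hs, y, rfl⟩ | ⟨H, hH, y, rfl⟩)
      · show T0 (_ - _) = 0
        rw [map_sub, sub_eq_zero]
        apply hT4
        intro k
        exact (hh.1 _ _ (rel_step Θ (Or.inr ⟨s, hs, k, rfl, rfl⟩))).symm
      · apply hT3
        intro k
        exact hh.2 _ ⟨H, hH, _, k.2, (rel Θ).refl _⟩
    exact fun z hz => h1 hz

/-- **Theorem.** -/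
theorem K1_rel (hΘ : ∀ s ∈ Θ, Function.Injective s.2) (x : K1Colim ℤ G) (n : ℕ) (hn : 0 < n)
    (hx : n • K1assembly ℤ G x ∈ trivialUnits G ⊔ D1 Θ 𝓗) :
    ∃ k : ℕ, 0 < k ∧ k • x ∈ N1 Θ 𝓗 := by
  classical
  obtain ⟨k, E, hk, hE, h1⟩ := cov_all x
  obtain ⟨p, hp, hp2, hpE⟩ := Nat.exists_prime_gt_modEq_one 2 hE.ne'
  have : Fact p.Prime := ⟨hp⟩
  have hodd : Odd p := hp.odd_of_ne_two (by omega)
  have hE' : E ∣ p - 1 := (Nat.modEq_iff_dvd' hp.one_lt.le).1 hpE.symm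
  choose! T0 T hTA hTB hTC using fun (h : G → ℤ) (hh : Admi Θ 𝓗 h) =>
    exists_TA (p := p) Θ 𝓗 hodd h hh
  have h2 : n • (k • x) ∈ SE ℤ G (p - 1) := AddSubgroup.nsmul_mem _ (SE_mono ℤ hE' h1) n
  have h3 : QuotientAddGroup.mk' (N1 Θ 𝓗) (n • (k • x)) ∈
      AddSubgroup.closure {z : Quo Θ 𝓗 | ∃ (C : Type) (_ : CommGroup C)
        (_ : Finite C) (_ : Nat.card C ∣ p - 1) (φ : C →* G) (_ : Function.Injective φ)
        (u : Additive (MonoidAlgebra ℤ C)ˣ), z = qsym Θ 𝓗 φ u} := by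
    have h4 : SE ℤ G (p - 1) ≤ (AddSubgroup.closure {z : Quo Θ 𝓗 | ∃ (C : Type) (_ : CommGroup C)
        (_ : Finite C) (_ : Nat.card C ∣ p - 1) (φ : C →* G) (_ : Function.Injective φ)
        (u : Additive (MonoidAlgebra ℤ C)ˣ), z = qsym Θ 𝓗 φ u}).comap
          (QuotientAddGroup.mk' (N1 Θ 𝓗)) := by
      unfold SE
      rw [AddSubgroup.closure_le]
      rintro z ⟨C, i1, i2, hC, φ, hφ, u, rfl⟩
      exact AddSubgroup.subset_closure ⟨C, i1, i2, hC, φ, hφ, u, rfl⟩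
    exact h4 h2
  obtain ⟨l, hl, h5⟩ := main (data (p := p) Θ 𝓗 hΘ) T (fun h hh => hTB h hh) h3 (by
    intro h hh
    rw [hTA h hh]
    have h4 := hTC h hh _ hx
    rw [map_nsmul, map_nsmul, map_nsmul, map_nsmul, smul_comm]
    rw [map_nsmul] at h4
    rw [h4, smul_zero])
  refine ⟨l * (n * k), Nat.mul_pos hl (Nat.mul_pos hn hk), ?_⟩
  rw [← map_nsmul] at h5
  rw [mul_smul, mul_smul]
  exact (QuotientAddGroup.eq_zero_iff _).1 h5

end

end Pool.Agent.Q99.WC
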