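import Pool.Agent.Y69.WhDef
import Pool.Agent.Q99.WC.Rel

/-!
# The relative form of the injectivity theorem for Whitehead groups

`Wh(G)`, `colim Wh(H)` (over the finite subgroups `H` of `G`) and the assembly map are those of
`Pool.Agent.Y69.WhDef` (namespace `Pool.Agent.Y69.FJ`).
-/

namespace Pool.Agent.Q99.WC

open Pool.Agent.Y69

noncomputable section

/-- The class in `colim Wh(H)` of the symbol `[K, x]`, for `K` a finite subgroup of `G` and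
`x ∈ Wh(K)`. -/
def cls {G : Type} [Group G] (K : FJ.FinSub G) (x : FJ.Wh K.1) : FJ.ColimWh G :=
  QuotientAddGroup.mk (FJ.sym K x)

/-- For a set `Θ` of homomorphisms `θ : A → G` defined on subgroups `A` of `G` and a set `𝓗` of
subgroups of `G`: the subgroup of `Wh(G)` generated by the elements `Wh(θ)(y) - Wh(i)(y)`, for
`θ : A → G` in `Θ` with inclusion `i : A → G` and `y ∈ Wh(A)`, and by the images of the groups
`Wh(H)`, `H ∈ 𝓗`. -/
def whRel {G : Type} [Group G] (Θ : Set (Σ A : Subgroup G, A →* G)) (𝓗 : Set (Subgroup G)) :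
    AddSubgroup (FJ.Wh G) :=
  AddSubgroup.closure ({z | ∃ s ∈ Θ, ∃ y : FJ.Wh s.1,
      z = FJ.Wh.map s.2 y - FJ.Wh.map s.1.subtype y} ∪
    {z | ∃ H ∈ 𝓗, ∃ y : FJ.Wh H, z = FJ.Wh.map H.subtype y})

/-- The corresponding subgroup of `colim Wh(H)`: it is generated by the elements
`[K', Wh(κ)(w)] - [K, w]`, for finite subgroups `K`, `K'` of `G` and a map `κ : K → K'` which is the
restriction of a member of `Θ`, and by the elements `[K, w]`, for finite subgroups `K` of members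
of `𝓗`. -/
def colimRel {G : Type} [Group G] (Θ : Set (Σ A : Subgroup G, A →* G)) (𝓗 : Set (Subgroup G)) :
    AddSubgroup (FJ.ColimWh G) :=
  AddSubgroup.closure ({z | ∃ s ∈ Θ, ∃ (K K' : FJ.FinSub G) (κ : K.1 →* K'.1) (w : FJ.Wh K.1),
      (∀ k : K.1, ∃ hk : (k : G) ∈ s.1, (κ k : G) = s.2 ⟨k, hk⟩) ∧
      z = cls K' (FJ.Wh.map κ w) - cls K w} ∪
    {z | ∃ H ∈ 𝓗, ∃ K : FJ.FinSub G, K.1 ≤ H ∧ ∃ w : FJ.Wh K.1, z = cls K w})

theorem whRel_le {G : Type} [Group G] (Θ : Set (Σ A : Subgroup G, A →* G))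
    (𝓗 : Set (Subgroup G)) (z : FJ.Wh G) (hz : z ∈ whRel Θ 𝓗) :
    ∃ d ∈ D1 Θ 𝓗, QuotientAddGroup.mk' (H970SH.trivialUnits G) d = z := by
  unfold whRel at hz
  induction hz using AddSubgroup.closure_induction with
  | mem z hz =>
    rcases hz with ⟨s, hs, y, rfl⟩ | ⟨H, hH, y, rfl⟩
    · obtain ⟨y, rfl⟩ := QuotientAddGroup.mk'_surjective (FJ.trivialUnits s.1) y
      exact ⟨_, AddSubgroup.subset_closure (Or.inl ⟨s, hs, y, rfl⟩), rfl⟩
    · obtain ⟨y, rfl⟩ := QuotientAddGroup.mk'_surjective (FJ.trivialUnits H) y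
      exact ⟨_, AddSubgroup.subset_closure (Or.inr ⟨H, hH, y, rfl⟩), rfl⟩
  | zero => exact ⟨0, (D1 Θ 𝓗).zero_mem, rfl⟩
  | add x y _ _ hx hy =>
    obtain ⟨a, ha, rfl⟩ := hx
    obtain ⟨b, hb, rfl⟩ := hy
    exact ⟨a + b, (D1 Θ 𝓗).add_mem ha hb, rfl⟩
  | neg x _ hx =>
    obtain ⟨a, ha, rfl⟩ := hx
    exact ⟨-a, (D1 Θ 𝓗).neg_mem ha, rfl⟩

theorem toWh_mem {G : Type} [Group G] (Θ : Set (Σ A : Subgroup G, A →* G))
    (𝓗 : Set (Subgroup G)) (x : K1Colim ℤ G) (hx : x ∈ N1 Θ 𝓗) :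
    (toWh G x : FJ.ColimWh G) ∈ colimRel Θ 𝓗 := by
  unfold N1 at hx
  induction hx using AddSubgroup.closure_induction with
  | mem x hx =>
    rcases hx with ⟨s, hs, K, K', κ, w, hκ, rfl⟩ | ⟨H, hH, K, hK, w, rfl⟩
    · rw [map_sub, toWh_ι, toWh_ι]
      exact AddSubgroup.subset_closure (Or.inl ⟨s, hs, K, K', κ,
        QuotientAddGroup.mk' (FJ.trivialUnits K.1) w, hκ, rfl⟩)
    · rw [toWh_ι]
      exact AddSubgroup.subset_closure (Or.inr ⟨H, hH, K, hK,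
        QuotientAddGroup.mk' (FJ.trivialUnits K.1) w, rfl⟩)
  | zero =>
    rw [map_zero]
    exact (colimRel Θ 𝓗).zero_mem
  | add x y _ _ hx hy =>
    rw [map_add]
    exact (colimRel Θ 𝓗).add_mem hx hy
  | neg x _ hx =>
    rw [map_neg]
    exact (colimRel Θ 𝓗).neg_mem hx

theorem wh_rel {G : Type} [Group G] (Θ : Set (Σ A : Subgroup G, A →* G)) (𝓗 : Set (Subgroup G))
    (hΘ : ∀ s ∈ Θ, Function.Injective s.2) (x : FJ.ColimWh G) (n : ℕ) (hn : 0 < n)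
    (hx : n • FJ.assembly G x ∈ whRel Θ 𝓗) : ∃ l : ℕ, 0 < l ∧ l • x ∈ colimRel Θ 𝓗 := by
  obtain ⟨y, hy⟩ := toWh_surjective (G := G) x
  have h1 : FJ.assembly G x = QuotientAddGroup.mk' (H970SH.trivialUnits G) (K1assembly ℤ G y) := by
    have := Whassembly_toWh (G := G) y
    rw [hy] at this
    exact this
  obtain ⟨d, hd, hd2⟩ := whRel_le Θ 𝓗 _ hx
  have h2 : QuotientAddGroup.mk' (H970SH.trivialUnits G) (n • K1assembly ℤ G y - d) = 0 := by
    rw [map_sub, map_nsmul, sub_eq_zero, hd2, h1]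
    rfl
  have h3 : n • K1assembly ℤ G y ∈ H970SH.trivialUnits G ⊔ D1 Θ 𝓗 := by
    have h4 : n • K1assembly ℤ G y = (n • K1assembly ℤ G y - d) + d := by abel
    rw [h4]
    exact AddSubgroup.add_mem_sup ((QuotientAddGroup.eq_zero_iff _).1 h2) hd
  obtain ⟨k, hk, h5⟩ := K1_rel Θ 𝓗 hΘ y n hn h3
  refine ⟨k, hk, ?_⟩
  have h6 := toWh_mem Θ 𝓗 _ h5
  rw [map_nsmul, hy] at h6
  exact h6

end

end Pool.Agent.Q99.WC
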