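import Mathlib
import Pool.Agent.Y69.TK.KMain
import Pool.Agent.Q99.WC.Rel

/-!
# The relative form of the injectivity theorem on the level of `K₁`, general coefficients
-/

namespace Pool.Agent.Q99.WC.KA

open H970SH H842 MonoidAlgebra Pool.Agent.Y69 Pool.Agent.Y69.Thy Pool.Agent.Y69.StepC
  Pool.Agent.Y69.Main Pool.Agent.Q99.WC Pool.Agent.Y69.TK.Dsc

noncomputable section

variable (A : Type) [CommRing A] {G : Type} [Group G] (Θ : Set (Σ A : Subgroup G, A →* G))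
  (𝓗 : Set (Subgroup G))

/-- the subgroup of `K₁(A[G])` -/
def D1 : AddSubgroup (K1 (MonoidAlgebra A G)) :=
  AddSubgroup.closure ({z | ∃ s ∈ Θ, ∃ y : K1 (MonoidAlgebra A s.1),
      z = K1map (mapDomainRingHom A s.2) y - K1map (mapDomainRingHom A s.1.subtype) y} ∪
    {z | ∃ H ∈ 𝓗, ∃ y : K1 (MonoidAlgebra A H), z = K1map (mapDomainRingHom A H.subtype) y})

/-- the subgroup of the colimit -/
def N1 : AddSubgroup (K1Colim A G) :=
  AddSubgroup.closure ({z | ∃ s ∈ Θ, ∃ (K K' : FinSub G) (κ : K.1 →* K'.1)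
      (w : K1 (MonoidAlgebra A K.1)),
      (∀ k : K.1, ∃ hk : (k : G) ∈ s.1, (κ k : G) = s.2 ⟨k, hk⟩) ∧
      z = Colim.ι (fun H => K1 (MonoidAlgebra A H)) (fun φ => K1map (mapDomainRingHom A φ)) K'
          (K1map (mapDomainRingHom A κ) w) -
        Colim.ι (fun H => K1 (MonoidAlgebra A H)) (fun φ => K1map (mapDomainRingHom A φ)) K w} ∪
    {z | ∃ H ∈ 𝓗, ∃ K : FinSub G, K.1 ≤ H ∧ ∃ w : K1 (MonoidAlgebra A K.1),
      z = Colim.ι (fun H => K1 (MonoidAlgebra A H)) (fun φ => K1map (mapDomainRingHom A φ)) K w})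

/-- the quotient of the colimit -/
abbrev Quo : Type := K1Colim A G ⧸ N1 A Θ 𝓗

/-- the symbols in the quotient -/
def qsym {C : Type} [CommGroup C] [Finite C] (φ : C →* G) :
    Additive (MonoidAlgebra A C)ˣ →+ Quo A Θ 𝓗 :=
  (QuotientAddGroup.mk' (N1 A Θ 𝓗)).comp (Main.sym A φ)

theorem qsym_apply {C : Type} [CommGroup C] [Finite C] (φ : C →* G)
    (u : Additive (MonoidAlgebra A C)ˣ) :
    qsym A Θ 𝓗 φ u = QuotientAddGroup.mk' (N1 A Θ 𝓗) (Main.sym A φ u) := rfl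

theorem qsym_map {C D : Type} [CommGroup C] [CommGroup D] [Finite C] [Finite D] (φ : C →* G)
    (ψ : D →* G) (f : D →* C) (g : G) (h : ∀ x, φ (f x) = g * ψ x * g⁻¹)
    (u : Additive (MonoidAlgebra A D)ˣ) : qsym A Θ 𝓗 φ (umap A f u) = qsym A Θ 𝓗 ψ u := by
  rw [qsym_apply, qsym_apply, sym_map A φ ψ f g h]

theorem qsym_conj {C : Type} [CommGroup C] [Finite C] (φ ψ : C →* G) (a : G)
    (h : ∀ x, ψ x = a * φ x * a⁻¹) (u : Additive (MonoidAlgebra A C)ˣ) :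
    qsym A Θ 𝓗 φ u = qsym A Θ 𝓗 ψ u := by
  have h2 := qsym_map A Θ 𝓗 ψ φ (MonoidHom.id C) a (fun x => h x) u
  have h3 := qsym_map A Θ 𝓗 ψ ψ (MonoidHom.id C) 1 (fun x => by simp) u
  rw [← h2, h3]

theorem qsym_pair {C : Type} [CommGroup C] [Finite C] {s : Σ A : Subgroup G, A →* G} (hs : s ∈ Θ)
    (χ : C →* s.1) (u : Additive (MonoidAlgebra A C)ˣ) :
    qsym A Θ 𝓗 (s.1.subtype.comp χ) u = qsym A Θ 𝓗 (s.2.comp χ) u := by
  have hmem : ∀ y : (rg (s.1.subtype.comp χ)).1, (y : G) ∈ s.1 := by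
    rintro ⟨_, x, rfl⟩
    exact (χ x).2
  have hmem2 : ∀ y : (rg (s.1.subtype.comp χ)).1, s.2 ⟨y, hmem y⟩ ∈ (rg (s.2.comp χ)).1 := by
    rintro ⟨_, x, rfl⟩
    exact ⟨x, rfl⟩
  let κ : (rg (s.1.subtype.comp χ)).1 →* (rg (s.2.comp χ)).1 :=
    { toFun := fun y => ⟨s.2 ⟨y, hmem y⟩, hmem2 y⟩
      map_one' := by
        apply Subtype.ext
        show s.2 ⟨(1 : G), _⟩ = 1
        exact map_one s.2
      map_mul' := fun y z => by
        apply Subtype.ext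
        show s.2 ⟨(y : G) * (z : G), _⟩ = s.2 ⟨y, hmem y⟩ * s.2 ⟨z, hmem z⟩
        rw [← map_mul]
        rfl }
  have h1 : κ.comp (rrg (s.1.subtype.comp χ)) = rrg (s.2.comp χ) := by
    ext x
    rfl
  rw [qsym_apply, qsym_apply, sym_apply, sym_apply, ← sub_eq_zero, ← map_sub]
  have h2 : Colim.ι (fun H => K1 (MonoidAlgebra A H)) (fun φ => K1map (mapDomainRingHom A φ))
        (rg (s.2.comp χ)) (K1map (mapDomainRingHom A κ)
          (cl (mapUnit (mapDomainRingHom A (rrg (s.1.subtype.comp χ))) (unit1 u.toMul)))) -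
      Colim.ι (fun H => K1 (MonoidAlgebra A H)) (fun φ => K1map (mapDomainRingHom A φ))
        (rg (s.1.subtype.comp χ))
        (cl (mapUnit (mapDomainRingHom A (rrg (s.1.subtype.comp χ))) (unit1 u.toMul))) ∈
        N1 A Θ 𝓗 := by
    refine AddSubgroup.subset_closure (Or.inl ⟨s, hs, _, _, κ, _, ?_, rfl⟩)
    intro k
    exact ⟨hmem k, rfl⟩
  rw [K1map_cl, mapUnit_comp, h1] at h2
  have h3 := (N1 A Θ 𝓗).neg_mem h2
  rw [neg_sub] at h3
  exact (QuotientAddGroup.eq_zero_iff _).2 h3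

theorem qsym_kill {C : Type} [CommGroup C] [Finite C] {H : Subgroup G} (hH : H ∈ 𝓗) (φ : C →* G)
    (h : ∀ x, φ x ∈ H) (u : Additive (MonoidAlgebra A C)ˣ) : qsym A Θ 𝓗 φ u = 0 := by
  rw [qsym_apply, sym_apply]
  refine (QuotientAddGroup.eq_zero_iff _).2 (AddSubgroup.subset_closure (Or.inr ⟨H, hH, rg φ, ?_,
    _, rfl⟩))
  rintro _ ⟨x, rfl⟩
  exact h x

theorem qsym_rel (hΘ : ∀ s ∈ Θ, Function.Injective s.2) {g g' : G}
    (h : Relation.EqvGen (Step Θ) g g') {C : Type}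
    [CommGroup C] [Finite C] (c : C) (hc : Subgroup.zpowers c = ⊤) :
    ∀ (φ ψ : C →* G), φ c = g → ψ c = g' → ∀ u, qsym A Θ 𝓗 φ u = qsym A Θ 𝓗 ψ u := by
  induction h with
  | rel x y hst =>
    intro φ ψ hφ hψ u
    rcases hst with ⟨a, rfl⟩ | ⟨s, hs, l, rfl, rfl⟩
    · refine qsym_conj A Θ 𝓗 φ ψ a (fun x => ?_) u
      have hx : x ∈ Subgroup.zpowers c := by rw [hc]; exact Subgroup.mem_top x
      obtain ⟨k, rfl⟩ := Subgroup.mem_zpowers_iff.1 hx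
      rw [map_zpow, map_zpow, hφ, hψ, conj_zpow]
    · have hl : orderOf l ∣ orderOf c := by
        rw [← Subgroup.orderOf_coe l, ← hφ]
        exact orderOf_map_dvd φ c
      obtain ⟨χ, hχ⟩ := WC.exists_hom c hc l hl
      have e1 : φ = s.1.subtype.comp χ := hom_eq c hc (by
        rw [hφ, MonoidHom.comp_apply, hχ]
        rfl)
      have e2 : ψ = s.2.comp χ := hom_eq c hc (by rw [hψ, MonoidHom.comp_apply, hχ])
      rw [e1, e2]
      exact qsym_pair A Θ 𝓗 hs χ u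
  | refl x =>
    intro φ ψ hφ hψ u
    rw [hom_eq c hc (hφ.trans hψ.symm)]
  | symm x y _ ih =>
    intro φ ψ hφ hψ u
    exact (ih ψ φ hψ hφ u).symm
  | trans x y z h1 h2 ih1 ih2 =>
    intro φ ψ hφ hψ u
    have hy : orderOf y ∣ orderOf c := by
      rw [← rel_ord Θ hΘ (g := x) (g' := y) h1, ← hφ]
      exact orderOf_map_dvd φ c
    obtain ⟨χ, hχ⟩ := WC.exists_hom c hc y hy
    rw [ih1 φ χ hφ hχ u, ih2 χ ψ hχ hψ u]

variable {p : ℕ} [hp : Fact p.Prime] {A} (j : A →+* ℤ_[p]) (hj : Function.Injective j)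

/-- the data for the separation theorem -/
def data (hΘ : ∀ s ∈ Θ, Function.Injective s.2) : RelData (theory j hj) G (Quo A Θ 𝓗) where
  sym φ := qsym A Θ 𝓗 φ
  hs φ ψ f g h u := qsym_map A Θ 𝓗 φ ψ f g h u
  r := rel Θ
  ord g g' h := rel_ord Θ hΘ h
  pow g g' h k := rel_pow Θ h k
  hr c hc φ ψ h u := qsym_rel A Θ 𝓗 hΘ h c hc φ ψ rfl rfl u
  Z := {g | ∃ H ∈ 𝓗, ∃ z ∈ H, rel Θ z g}
  Zsat := by
    rintro g g' h ⟨H, hH, z, hz, hzg⟩
    exact ⟨H, hH, z, hz, (rel Θ).trans hzg h⟩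
  hZ := by
    rintro C _ _ c hc φ ⟨H, hH, z, hz, hzg⟩ u
    have hy : orderOf z ∣ orderOf c := by
      rw [rel_ord Θ hΘ hzg]
      exact orderOf_map_dvd φ c
    obtain ⟨ψ, hψ⟩ := WC.exists_hom c hc z hy
    show qsym A Θ 𝓗 φ u = 0
    rw [← qsym_rel A Θ 𝓗 hΘ hzg c hc ψ φ hψ rfl u]
    refine qsym_kill A Θ 𝓗 hH ψ (fun x => ?_) u
    have hx : x ∈ Subgroup.zpowers c := by rw [hc]; exact Subgroup.mem_top x
    obtain ⟨k, rfl⟩ := Subgroup.mem_zpowers_iff.1 hx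
    rw [map_zpow, hψ]
    exact H.zpow_mem hz k

/-- the traces on the quotient -/
theorem exists_TA (hodd : Odd p) (h : G → ℤ) (hh : Admi Θ 𝓗 h) :
    ∃ (T0 : K1 (MonoidAlgebra A G) →+ Lam p) (T : Quo A Θ 𝓗 →+ Lam p),
      (∀ x, T (QuotientAddGroup.mk' (N1 A Θ 𝓗) x) = T0 (K1assembly A G x)) ∧
      (∀ (C : Type) [CommGroup C] [Fintype C] (_ : Nat.card C ∣ p - 1) (φ : C →* G)
        (u : Additive (MonoidAlgebra A C)ˣ), T (qsym A Θ 𝓗 φ u) =
          ∑ c, bb j u c * ((h (φ c) : ℤ) : Lam p)) ∧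
      (∀ z ∈ D1 A Θ 𝓗, T0 z = 0) := by
  obtain ⟨T0, hT1, hT2, hT3, hT4⟩ := exists_TK' (A := A) j hodd h hh.cls
  have hN : N1 A Θ 𝓗 ≤ (T0.comp (K1assembly A G)).ker := by
    unfold N1
    rw [AddSubgroup.closure_le]
    rintro z (⟨s, hs, K, K', κ, w, hκ, rfl⟩ | ⟨H, hH, K, hK, w, rfl⟩)
    · show T0 (K1assembly A G (_ - _)) = 0
      rw [map_sub, map_sub, K1assembly_ι, K1assembly_ι, K1map_comp, mapDomainRingHom_comp',
        sub_eq_zero]
      apply hT4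
      intro k
      obtain ⟨hk, hk2⟩ := hκ k
      show h (κ k : G) = h (k : G)
      rw [hk2]
      exact (hh.1 _ _ (rel_step Θ (Or.inr ⟨s, hs, ⟨k, hk⟩, rfl, rfl⟩))).symm
    · show T0 (K1assembly A G _) = 0
      rw [K1assembly_ι]
      apply hT3
      intro k
      exact hh.2 _ ⟨H, hH, _, hK k.2, (rel Θ).refl _⟩
  refine ⟨T0, QuotientAddGroup.lift (N1 A Θ 𝓗) (T0.comp (K1assembly A G)) hN, ?_, ?_, ?_⟩
  · intro x
    rw [QuotientAddGroup.mk'_apply, QuotientAddGroup.lift_mk]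
    rfl
  · intro C _ _ hC φ u
    rw [qsym_apply, QuotientAddGroup.mk'_apply, QuotientAddGroup.lift_mk, AddMonoidHom.comp_apply,
      assembly_sym]
    exact hT1 C hC φ u
  · have h1 : D1 A Θ 𝓗 ≤ T0.ker := by
      unfold D1
      rw [AddSubgroup.closure_le]
      rintro z (⟨s, hs, y, rfl⟩ | ⟨H, hH, y, rfl⟩)
      · show T0 (_ - _) = 0
        rw [map_sub, sub_eq_zero]
        apply hT4
        intro k
        exact (hh.1 _ _ (rel_step Θ (Or.inr ⟨s, hs, k, rfl, rfl⟩))).symm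
      · apply hT3
        intro k
        exact hh.2 _ ⟨H, hH, _, k.2, (rel Θ).refl _⟩
    exact fun z hz => h1 hz

include hj in
/-- separation over a subring of the `p`-adic integers -/
theorem sepA (hodd : Odd p) (hΘ : ∀ s ∈ Θ, Function.Injective s.2) (y : K1Colim A G)
    (hy : y ∈ SE A G (p - 1)) (hx : K1assembly A G y ∈ D1 A Θ 𝓗) :
    ∃ k : ℕ, 0 < k ∧ k • y ∈ N1 A Θ 𝓗 := by
  classical
  choose! T0 T hTA hTB hTC using fun (h : G → ℤ) (hh : Admi Θ 𝓗 h) =>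
    exists_TA Θ 𝓗 j hodd h hh
  have h3 : QuotientAddGroup.mk' (N1 A Θ 𝓗) y ∈
      AddSubgroup.closure {z : Quo A Θ 𝓗 | ∃ (C : Type) (_ : CommGroup C)
        (_ : Finite C) (_ : Nat.card C ∣ p - 1) (φ : C →* G) (_ : Function.Injective φ)
        (u : Additive (MonoidAlgebra A C)ˣ), z = qsym A Θ 𝓗 φ u} := by
    have h4 : SE A G (p - 1) ≤ (AddSubgroup.closure {z : Quo A Θ 𝓗 |
        ∃ (C : Type) (_ : CommGroup C)
        (_ : Finite C) (_ : Nat.card C ∣ p - 1) (φ : C →* G) (_ : Function.Injective φ)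
        (u : Additive (MonoidAlgebra A C)ˣ), z = qsym A Θ 𝓗 φ u}).comap
          (QuotientAddGroup.mk' (N1 A Θ 𝓗)) := by
      unfold SE
      rw [AddSubgroup.closure_le]
      rintro z ⟨C, i1, i2, hC, φ, hφ, u, rfl⟩
      exact AddSubgroup.subset_closure ⟨C, i1, i2, hC, φ, hφ, u, rfl⟩
    exact h4 hy
  obtain ⟨l, hl, h5⟩ := main (data Θ 𝓗 j hj hΘ) T (fun h hh => hTB h hh) h3 (by
    intro h hh
    rw [hTA h hh]
    exact hTC h hh _ hx)
  refine ⟨l, hl, ?_⟩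
  rw [← map_nsmul] at h5
  exact (QuotientAddGroup.eq_zero_iff _).1 h5

/-! ### Change of coefficients -/

section change

variable {A B : Type} [CommRing A] [CommRing B]

theorem D1_map (f : A →+* B) {x : K1 (MonoidAlgebra A G)} (hx : x ∈ D1 A Θ 𝓗) :
    K1map (mapRingHom G f) x ∈ D1 B Θ 𝓗 := by
  unfold D1 at hx
  induction hx using AddSubgroup.closure_induction with
  | mem x hx =>
    rcases hx with ⟨s, hs, y, rfl⟩ | ⟨H, hH, y, rfl⟩
    · rw [map_sub, K1map_comp, K1map_comp, mapRing_mapDomain, mapRing_mapDomain, ← K1map_comp,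
        ← K1map_comp]
      exact AddSubgroup.subset_closure (Or.inl ⟨s, hs, _, rfl⟩)
    · rw [K1map_comp, mapRing_mapDomain, ← K1map_comp]
      exact AddSubgroup.subset_closure (Or.inr ⟨H, hH, _, rfl⟩)
  | zero => rw [map_zero]; exact AddSubgroup.zero_mem _
  | add x y _ _ hx hy => rw [map_add]; exact AddSubgroup.add_mem _ hx hy
  | neg x _ hx => rw [map_neg]; exact AddSubgroup.neg_mem _ hx

theorem N1_map (f : A →+* B) {x : K1Colim A G} (hx : x ∈ N1 A Θ 𝓗) :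
    cmap f x ∈ N1 B Θ 𝓗 := by
  unfold N1 at hx
  induction hx using AddSubgroup.closure_induction with
  | mem x hx =>
    rcases hx with ⟨s, hs, K, K', κ, w, hκ, rfl⟩ | ⟨H, hH, K, hK, w, rfl⟩
    · rw [map_sub, cmap_ι, cmap_ι, K1map_comp, mapRing_mapDomain, ← K1map_comp]
      exact AddSubgroup.subset_closure (Or.inl ⟨s, hs, K, K', κ, _, hκ, rfl⟩)
    · rw [cmap_ι]
      exact AddSubgroup.subset_closure (Or.inr ⟨H, hH, K, hK, _, rfl⟩)
  | zero => rw [map_zero]; exact AddSubgroup.zero_mem _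
  | add x y _ _ hx hy => rw [map_add]; exact AddSubgroup.add_mem _ hx hy
  | neg x _ hx => rw [map_neg]; exact AddSubgroup.neg_mem _ hx

open Filter

variable {k : Type} [CommRing k] (S : Sys k)

theorem ev_K1 {L : Type} [Group L] (x : K1 (MonoidAlgebra k L)) :
    ∀ᶠ t : Finset k in atTop, ∃ x' : K1 (MonoidAlgebra (S.A t) L),
      K1map (mapRingHom L (S.inA t)) x' = x := by
  obtain ⟨n, M, rfl⟩ := K1_exists x
  filter_upwards [ev_lift S L M] with t ht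
  obtain ⟨M', rfl⟩ := ht
  exact ⟨cl M', K1map_cl _ _⟩

theorem ev_D1 {x : K1 (MonoidAlgebra k G)} (hx : x ∈ D1 k Θ 𝓗) :
    ∀ᶠ t : Finset k in atTop, ∃ x' ∈ D1 (S.A t) Θ 𝓗, K1map (mapRingHom G (S.inA t)) x' = x := by
  unfold D1 at hx
  induction hx using AddSubgroup.closure_induction with
  | mem x hx =>
    rcases hx with ⟨s, hs, y, rfl⟩ | ⟨H, hH, y, rfl⟩
    · filter_upwards [ev_K1 S y] with t ht
      obtain ⟨y', rfl⟩ := ht
      refine ⟨_, AddSubgroup.subset_closure (Or.inl ⟨s, hs, y', rfl⟩), ?_⟩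
      rw [map_sub, K1map_comp, K1map_comp, mapRing_mapDomain, mapRing_mapDomain, ← K1map_comp,
        ← K1map_comp]
    · filter_upwards [ev_K1 S y] with t ht
      obtain ⟨y', rfl⟩ := ht
      refine ⟨_, AddSubgroup.subset_closure (Or.inr ⟨H, hH, y', rfl⟩), ?_⟩
      rw [K1map_comp, mapRing_mapDomain, ← K1map_comp]
  | zero => exact Eventually.of_forall fun t => ⟨0, AddSubgroup.zero_mem _, map_zero _⟩
  | add x y _ _ hx hy =>
    filter_upwards [hx, hy] with t h1 h2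
    obtain ⟨a, ha, rfl⟩ := h1
    obtain ⟨b, hb, rfl⟩ := h2
    exact ⟨a + b, AddSubgroup.add_mem _ ha hb, map_add _ _ _⟩
  | neg x _ hx =>
    filter_upwards [hx] with t h1
    obtain ⟨a, ha, rfl⟩ := h1
    exact ⟨-a, AddSubgroup.neg_mem _ ha, map_neg _ _⟩

/-- the abstract relative theorem -/
theorem main_sys (hΘ : ∀ s ∈ Θ, Function.Injective s.2)
    (hk : ∀ n : ℕ, 0 < n → IsUnit (n : k))
    (hU : ∀ (C : Type) [CommGroup C] [Finite C] (x : K1 (MonoidAlgebra k C)),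
      ∃ u : (MonoidAlgebra k C)ˣ, x = cl (unit1 u))
    (hS : ∀ (s : Finset k) (E : ℕ), 0 < E → ∃ (p : ℕ) (_ : Fact p.Prime), 2 < p ∧ E ∣ p - 1 ∧
      ∃ ψ : S.A s →+* ℤ_[p], Function.Injective ψ)
    (x : K1Colim k G) (n : ℕ) (hn : 0 < n) (hx : n • K1assembly k G x ∈ D1 k Θ 𝓗) :
    ∃ l : ℕ, 0 < l ∧ l • x ∈ N1 k Θ 𝓗 := by
  obtain ⟨m, E, hm, hE, h1⟩ := TK.KMain.cov_allK hk hU x
  have hx2 : m • n • K1assembly k G x ∈ D1 k Θ 𝓗 := AddSubgroup.nsmul_mem _ hx m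
  obtain ⟨s, ⟨y, hy, hyx⟩, ⟨d, hd, hdx⟩⟩ := ((ev_SE S G h1).and (ev_D1 Θ 𝓗 S hx2)).exists
  have h2 : K1map (inc S G s) (n • K1assembly (S.A s) G y - d) = 0 := by
    rw [map_sub, map_nsmul]
    have h3 := assembly_cmap (S.inA s) y
    rw [hyx, map_nsmul] at h3
    show n • K1map (mapRingHom G (S.inA s)) _ - K1map (mapRingHom G (S.inA s)) _ = 0
    rw [← h3, hdx, smul_comm, sub_self]
  obtain ⟨t, hst, ht⟩ := descend S G s _ h2
  rw [map_sub, map_nsmul, sub_eq_zero] at ht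
  obtain ⟨p, hp, hp2, hpE, ψ, hψ⟩ := hS t E hE
  have hodd : Odd p := hp.out.odd_of_ne_two (by omega)
  have h4 : n • cmap (S.inAA hst) y ∈ SE (S.A t) G (p - 1) :=
    AddSubgroup.nsmul_mem _ (SE_mono _ hpE (cmap_SE _ hy)) n
  obtain ⟨l, hl, h5⟩ := sepA Θ 𝓗 ψ hψ hodd hΘ _ h4 (by
    rw [map_nsmul, assembly_cmap, ht]
    exact D1_map Θ 𝓗 _ hd)
  have h6 := N1_map Θ 𝓗 (S.inA t) h5
  rw [map_nsmul, map_nsmul, cmap_cmap, S.comp hst, hyx] at h6
  refine ⟨l * n * m, Nat.mul_pos (Nat.mul_pos hl hn) hm, ?_⟩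
  rw [mul_smul, mul_smul]
  exact h6

end change

/-- **Theorem.** -/
theorem main_field (k : Type) [Field k] [CharZero k] (hΘ : ∀ s ∈ Θ, Function.Injective s.2)
    (x : K1Colim k G) (n : ℕ) (hn : 0 < n) (hx : n • K1assembly k G x ∈ D1 k Θ 𝓗) :
    ∃ l : ℕ, 0 < l ∧ l • x ∈ N1 k Θ 𝓗 :=
  main_sys Θ 𝓗 (TK.KMain.fgSys k) hΘ (fun n hn => isUnit_iff_ne_zero.2 (by exact_mod_cast hn.ne'))
    (fun C _ _ x => TK.UnK.K1_groupAlgebra k C x) (TK.KMain.fgSys_embed k) x n hn hx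

end

end Pool.Agent.Q99.WC.KA
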