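import Pool.Agent.Y69.TP.FinP
import Pool.Agent.Q99.WC.RelA

/-!
# The relative form of the injectivity theorem on the level of `K₁`, characteristic `p`
-/

namespace Pool.Agent.Q99.WC.KA

open H970SH H842 Pool.Agent.Y69 Pool.Agent.Y69.Thy Pool.Agent.Y69.StepC
  Pool.Agent.Y69.Main Pool.Agent.Q99.WC Pool.Agent.Y69.TK.Dsc Pool.Agent.Y69.TP
  Pool.Agent.Y69.TK.KMain

noncomputable section

variable {G : Type} [Group G] (Θ : Set (Σ A : Subgroup G, A →* G)) (𝓗 : Set (Subgroup G))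

section sep

variable {p : ℕ} [hp : Fact p.Prime] (I : Inp p) {K : Type} [Field K] (j : K →+* I.K')

theorem TT_pair {L : Type} [Group L] {h : G → ℤ} (hh : ∀ x y, h (x * y) = h (y * x))
    (α β : L →* G) (e : ∀ l, h (α l) = h (β l)) (y : K1 (MonoidAlgebra K L)) :
    I.TT j hh (K1map (MonoidAlgebra.mapDomainRingHom K α) y) =
      I.TT j hh (K1map (MonoidAlgebra.mapDomainRingHom K β) y) := by
  rw [I.TT_map j α hh (fun x y => by rw [map_mul, map_mul, hh]),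
    I.TT_map j β hh (fun x y => by rw [map_mul, map_mul, hh])]
  exact I.TT_congr j _ _ (funext e) y

theorem TT_van {L : Type} [Group L] {h : G → ℤ} (hh : ∀ x y, h (x * y) = h (y * x))
    (i : L →* G) (e : ∀ l, h (i l) = 0) (y : K1 (MonoidAlgebra K L)) :
    I.TT j hh (K1map (MonoidAlgebra.mapDomainRingHom K i) y) = 0 := by
  rw [I.TT_map j i hh (fun x y => by rw [map_mul, map_mul, hh])]
  let f : L →* Multiplicative (Fin 1) := 1
  have h1 := I.TT_map j f (h' := fun _ => 0) (fun _ _ => rfl) (fun _ _ => rfl) y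
  rw [I.TT_sum] at h1
  have h2 : ∀ d : Multiplicative (Fin 1), I.TT j (dl_comm d)
      (K1map (MonoidAlgebra.mapDomainRingHom K f) y) * (((0 : ℤ) : ℤ) : I.Lam) = 0 := by
    intro d
    rw [Int.cast_zero, mul_zero]
  simp only [h2, Finset.sum_const_zero] at h1
  rw [h1]
  exact I.TT_congr j _ _ (funext e) y

/-- the data for the separation theorem -/
def dataP (hΘ : ∀ s ∈ Θ, Function.Injective s.2) {E : ℕ} (hE : 0 < E)
    (hEK : (E : K) ≠ 0) {ζ : I.K'} (hζ : IsPrimitiveRoot ζ E) :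
    RelData (I.theory j hE hEK hζ) G (Quo K Θ 𝓗) where
  sym φ := qsym K Θ 𝓗 φ
  hs φ ψ f g h u := qsym_map K Θ 𝓗 φ ψ f g h u
  r := rel Θ
  ord g g' h := rel_ord Θ hΘ h
  pow g g' h k := rel_pow Θ h k
  hr c hc φ ψ h u := qsym_rel K Θ 𝓗 hΘ h c hc φ ψ rfl rfl u
  Z := {g | ∃ H ∈ 𝓗, ∃ z ∈ H, rel Θ z g}
  Zsat := by
    rintro g g' h ⟨H, hH, z, hz, hzg⟩
    exact ⟨H, hH, z, hz, (rel Θ).trans hzg h⟩
  hZ := by
    rintro C _ _ c hc φ ⟨H, hH, z, hz, hzg⟩ u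
    have hy : orderOf z ∣ orderOf c := by
      rw [rel_ord Θ hΘ hzg]
      exact orderOf_map_dvd φ c
    obtain ⟨ψ, hψ⟩ := WC.exists_hom c hc z hy
    show qsym K Θ 𝓗 φ u = 0
    rw [← qsym_rel K Θ 𝓗 hΘ hzg c hc ψ φ hψ rfl u]
    refine qsym_kill K Θ 𝓗 hH ψ (fun x => ?_) u
    have hx : x ∈ Subgroup.zpowers c := by rw [hc]; exact Subgroup.mem_top x
    obtain ⟨k, rfl⟩ := Subgroup.mem_zpowers_iff.1 hx
    rw [map_zpow, hψ]
    exact H.zpow_mem hz k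

/-- the traces on the quotient -/
theorem exists_TP (h : G → ℤ) (hh : Admi Θ 𝓗 h) :
    ∃ (T0 : K1 (MonoidAlgebra K G) →+ I.Lam) (T : Quo K Θ 𝓗 →+ I.Lam),
      (∀ x, T (QuotientAddGroup.mk' (N1 K Θ 𝓗) x) = T0 (K1assembly K G x)) ∧
      (∀ (C : Type) [CommGroup C] [Fintype C] (φ : C →* G)
        (u : Additive (MonoidAlgebra K C)ˣ), T (qsym K Θ 𝓗 φ u) =
          ∑ c, I.bb j u c * ((h (φ c) : ℤ) : I.Lam)) ∧
      (∀ z ∈ D1 K Θ 𝓗, T0 z = 0) := by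
  have hcl := hh.cls
  have hN : N1 K Θ 𝓗 ≤ ((I.TT j hcl).comp (K1assembly K G)).ker := by
    unfold N1
    rw [AddSubgroup.closure_le]
    rintro z (⟨s, hs, K, K', κ, w, hκ, rfl⟩ | ⟨H, hH, K, hK, w, rfl⟩)
    · show I.TT j hcl (K1assembly _ G (_ - _)) = 0
      rw [map_sub, map_sub, K1assembly_ι, K1assembly_ι, K1map_comp, mapDomainRingHom_comp',
        sub_eq_zero]
      apply TT_pair
      intro k
      obtain ⟨hk, hk2⟩ := hκ k
      show h (κ k : G) = h (k : G)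
      rw [hk2]
      exact (hh.1 _ _ (rel_step Θ (Or.inr ⟨s, hs, ⟨k, hk⟩, rfl, rfl⟩))).symm
    · show I.TT j hcl (K1assembly _ G _) = 0
      rw [K1assembly_ι]
      apply TT_van
      intro k
      exact hh.2 _ ⟨H, hH, _, hK k.2, (rel Θ).refl _⟩
  refine ⟨I.TT j hcl, QuotientAddGroup.lift (N1 K Θ 𝓗) ((I.TT j hcl).comp (K1assembly K G)) hN,
    ?_, ?_, ?_⟩
  · intro x
    rw [QuotientAddGroup.mk'_apply, QuotientAddGroup.lift_mk]
    rfl
  · intro C _ _ φ u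
    rw [qsym_apply, QuotientAddGroup.mk'_apply, QuotientAddGroup.lift_mk, AddMonoidHom.comp_apply,
      assembly_sym, ← K1map_cl, I.TT_map j φ hcl (fun x y => by
        rw [map_mul, map_mul, hcl]), I.TT_sum]
    rfl
  · have h1 : D1 K Θ 𝓗 ≤ (I.TT j hcl).ker := by
      unfold D1
      rw [AddSubgroup.closure_le]
      rintro z (⟨s, hs, y, rfl⟩ | ⟨H, hH, y, rfl⟩)
      · show I.TT j hcl (_ - _) = 0
        rw [map_sub, sub_eq_zero]
        apply TT_pair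
        intro k
        exact (hh.1 _ _ (rel_step Θ (Or.inr ⟨s, hs, k, rfl, rfl⟩))).symm
      · show I.TT j hcl _ = 0
        apply TT_van
        intro k
        exact hh.2 _ ⟨H, hH, _, k.2, (rel Θ).refl _⟩
    exact fun z hz => h1 hz

include j in
/-- separation over a field with enough roots of unity in a finitely generated extension -/
theorem sepIrel (hΘ : ∀ s ∈ Θ, Function.Injective s.2) {E : ℕ} (hE : 0 < E)
    (hEK : (E : K) ≠ 0) {ζ : I.K'} (hζ : IsPrimitiveRoot ζ E) {y : K1Colim K G}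
    (hy : y ∈ SE K G E) (hx : K1assembly K G y ∈ D1 K Θ 𝓗) :
    ∃ k : ℕ, 0 < k ∧ k • y ∈ N1 K Θ 𝓗 := by
  classical
  choose! T0 T hTA hTB hTC using fun (h : G → ℤ) (hh : Admi Θ 𝓗 h) =>
    exists_TP Θ 𝓗 I j h hh
  have h3 : QuotientAddGroup.mk' (N1 K Θ 𝓗) y ∈
      AddSubgroup.closure {z : Quo K Θ 𝓗 | ∃ (C : Type) (_ : CommGroup C)
        (_ : Finite C) (_ : Nat.card C ∣ E) (φ : C →* G) (_ : Function.Injective φ)
        (u : Additive (MonoidAlgebra K C)ˣ), z = qsym K Θ 𝓗 φ u} := by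
    have h4 : SE K G E ≤ (AddSubgroup.closure {z : Quo K Θ 𝓗 |
        ∃ (C : Type) (_ : CommGroup C)
        (_ : Finite C) (_ : Nat.card C ∣ E) (φ : C →* G) (_ : Function.Injective φ)
        (u : Additive (MonoidAlgebra K C)ˣ), z = qsym K Θ 𝓗 φ u}).comap
          (QuotientAddGroup.mk' (N1 K Θ 𝓗)) := by
      unfold SE
      rw [AddSubgroup.closure_le]
      rintro z ⟨C, i1, i2, hC, φ, hφ, u, rfl⟩
      exact AddSubgroup.subset_closure ⟨C, i1, i2, hC, φ, hφ, u, rfl⟩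
    exact h4 hy
  obtain ⟨l, hl, h5⟩ := WC.main (dataP Θ 𝓗 I j hΘ hE hEK hζ) T
    (fun h hh C _ _ _ φ u => hTB h hh C φ u) h3 (by
    intro h hh
    rw [hTA h hh]
    exact hTC h hh _ hx)
  refine ⟨l, hl, ?_⟩
  rw [← map_nsmul] at h5
  exact (QuotientAddGroup.eq_zero_iff _).1 h5

end sep

/-- the abstract relative theorem in characteristic `p` -/
theorem main_sysP {k : Type} [Field k] (p : ℕ) [hp : Fact p.Prime] [CharP k p]
    (S : Sys k)
    (hS : ∀ (s : Finset k) (E : ℕ), ¬ p ∣ E → ∀ y ∈ SE (S.A s) G E,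
      K1assembly (S.A s) G y ∈ D1 (S.A s) Θ 𝓗 → ∃ l : ℕ, 0 < l ∧ l • y ∈ N1 (S.A s) Θ 𝓗)
    (x : K1Colim k G) (n : ℕ) (hn : 0 < n) (hx : n • K1assembly k G x ∈ D1 k Θ 𝓗) :
    ∃ l : ℕ, 0 < l ∧ l • x ∈ N1 k Θ 𝓗 := by
  obtain ⟨m, E, hm, hE, h1⟩ := covP_all p x
  have hx2 : m • n • K1assembly k G x ∈ D1 k Θ 𝓗 := AddSubgroup.nsmul_mem _ hx m
  obtain ⟨s, ⟨y, hy, hyx⟩, ⟨d, hd, hdx⟩⟩ := ((ev_SE S G h1).and (ev_D1 Θ 𝓗 S hx2)).exists
  have h2 : K1map (inc S G s) (n • K1assembly (S.A s) G y - d) = 0 := by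
    rw [map_sub, map_nsmul]
    have h3 := assembly_cmap (S.inA s) y
    rw [hyx, map_nsmul] at h3
    show n • K1map (MonoidAlgebra.mapRingHom G (S.inA s)) _ -
      K1map (MonoidAlgebra.mapRingHom G (S.inA s)) _ = 0
    rw [← h3, hdx, smul_comm, sub_self]
  obtain ⟨t, hst, ht⟩ := descend S G s _ h2
  rw [map_sub, map_nsmul, sub_eq_zero] at ht
  have h4 : n • cmap (S.inAA hst) y ∈ SE (S.A t) G E :=
    AddSubgroup.nsmul_mem _ (cmap_SE _ hy) n
  obtain ⟨l, hl, h5⟩ := hS t E hE _ h4 (by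
    rw [map_nsmul, assembly_cmap, ht]
    exact D1_map Θ 𝓗 _ hd)
  have h6 := N1_map Θ 𝓗 (S.inA t) h5
  rw [map_nsmul, map_nsmul, cmap_cmap, S.comp hst, hyx] at h6
  refine ⟨l * n * m, Nat.mul_pos (Nat.mul_pos hl hn) hm, ?_⟩
  rw [mul_smul, mul_smul]
  exact h6

/-- **Theorem.** -/
theorem main_fieldP (k : Type) [Field k] (p : ℕ) [hp : Fact p.Prime] [CharP k p]
    (hΘ : ∀ s ∈ Θ, Function.Injective s.2) (x : K1Colim k G) (n : ℕ) (hn : 0 < n)
    (hx : n • K1assembly k G x ∈ D1 k Θ 𝓗) :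
    ∃ l : ℕ, 0 < l ∧ l • x ∈ N1 k Θ 𝓗 := by
  refine main_sysP Θ 𝓗 p (ffSys k) ?_ x n hn hx
  intro s E hE y hy h0
  obtain ⟨S, hS⟩ := AF_fg k s
  have : CharP (AF k s) p := (inF k s).charP (inF_inj k s) p
  have hE0 : 0 < E := Nat.pos_of_ne_zero (by rintro rfl; exact hE (dvd_zero p))
  have hEK : (E : AF k s) ≠ 0 := fun h => hE ((CharP.cast_eq_zero_iff (AF k s) p E).1 h)
  obtain ⟨I, j, ζ, hζ⟩ := exists_inp (p := p) (AF k s) S hS hE0 hEK
  exact sepIrel (G := G) Θ 𝓗 I j hΘ hE0 hEK hζ hy h0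

/-- **Theorem.** Any field. -/
theorem main_any (k : Type) [Field k] (hΘ : ∀ s ∈ Θ, Function.Injective s.2) (x : K1Colim k G)
    (n : ℕ) (hn : 0 < n) (hx : n • K1assembly k G x ∈ D1 k Θ 𝓗) :
    ∃ l : ℕ, 0 < l ∧ l • x ∈ N1 k Θ 𝓗 := by
  obtain ⟨p, hp⟩ := CharP.exists k
  rcases CharP.char_is_prime_or_zero k p with h | h
  · have : Fact p.Prime := ⟨h⟩
    exact main_fieldP Θ 𝓗 k p hΘ x n hn hx
  · subst h
    have : CharZero k := CharP.charP_to_charZero k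
    exact main_field Θ 𝓗 k hΘ x n hn hx

end

end Pool.Agent.Q99.WC.KA
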