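import Pool.Agent.Y69.TK.KDef
import Pool.Agent.Q99.WC.RelP

/-!
# The relative form of the injectivity theorem for `K₁` of group algebras over fields

`K₁(k[G])`, `colim K₁(k[H])` (over the finite subgroups `H` of `G`) and the assembly map are those
of `Pool.Agent.Y69.TK.KDef` (namespace `Pool.Agent.Y69.FJK`).
-/

namespace Pool.Agent.Q99.WC

open Pool.Agent.Y69

noncomputable section

/-- The class in `colim K₁(k[H])` of the symbol `[K, x]`, for `K` a finite subgroup of `G` and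
`x ∈ K₁(k[K])`. -/
def kcls {k G : Type} [CommRing k] [Group G] (K : FJ.FinSub G) (x : FJK.GK1 k K.1) :
    FJK.ColimK1 k G :=
  QuotientAddGroup.mk (FJK.sym K x)

/-- For a set `Θ` of homomorphisms `θ : A → G` defined on subgroups `A` of `G` and a set `𝓗` of
subgroups of `G`: the subgroup of `K₁(k[G])` generated by the elements `θ_*(y) - i_*(y)`, for
`θ : A → G` in `Θ` with inclusion `i : A → G` and `y ∈ K₁(k[A])`, and by the images of the groups
`K₁(k[H])`, `H ∈ 𝓗`. -/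
def kRel (k : Type) [CommRing k] {G : Type} [Group G] (Θ : Set (Σ A : Subgroup G, A →* G))
    (𝓗 : Set (Subgroup G)) : AddSubgroup (FJK.GK1 k G) :=
  AddSubgroup.closure ({z | ∃ s ∈ Θ, ∃ y : FJK.GK1 k s.1,
      z = FJK.GK1.map s.2 y - FJK.GK1.map s.1.subtype y} ∪
    {z | ∃ H ∈ 𝓗, ∃ y : FJK.GK1 k H, z = FJK.GK1.map H.subtype y})

/-- The corresponding subgroup of `colim K₁(k[H])`: it is generated by the elements
`[K', κ_*(w)] - [K, w]`, for finite subgroups `K`, `K'` of `G` and a map `κ : K → K'` which is the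
restriction of a member of `Θ`, and by the elements `[K, w]`, for finite subgroups `K` of members
of `𝓗`. -/
def kColimRel (k : Type) [CommRing k] {G : Type} [Group G] (Θ : Set (Σ A : Subgroup G, A →* G))
    (𝓗 : Set (Subgroup G)) : AddSubgroup (FJK.ColimK1 k G) :=
  AddSubgroup.closure ({z | ∃ s ∈ Θ, ∃ (K K' : FJ.FinSub G) (κ : K.1 →* K'.1)
      (w : FJK.GK1 k K.1), (∀ g : K.1, ∃ hg : (g : G) ∈ s.1, (κ g : G) = s.2 ⟨g, hg⟩) ∧
      z = kcls K' (FJK.GK1.map κ w) - kcls K w} ∪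
    {z | ∃ H ∈ 𝓗, ∃ K : FJ.FinSub G, K.1 ≤ H ∧ ∃ w : FJK.GK1 k K.1, z = kcls K w})

theorem k_rel (k : Type) [Field k] {G : Type} [Group G] (Θ : Set (Σ A : Subgroup G, A →* G))
    (𝓗 : Set (Subgroup G)) (hΘ : ∀ s ∈ Θ, Function.Injective s.2) (x : FJK.ColimK1 k G) (n : ℕ)
    (hn : 0 < n) (hx : n • FJK.assembly k G x ∈ kRel k Θ 𝓗) :
    ∃ l : ℕ, 0 < l ∧ l • x ∈ kColimRel k Θ 𝓗 :=
  KA.main_any Θ 𝓗 k hΘ x n hn hx

end

end Pool.Agent.Q99.WC
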